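import Mathlib
import Pool.Agent.MP_8067b8_lc.H6.Defs

-- part MP_8067b8_lc.H6.HL
section

/-! The Halpern-Laeuchli theorem, dense set form, inside a hereditary class of matrices. -/

set_option autoImplicit false

open Set Function

namespace Pool.Agent.MP_8067b8_lc.H6

abbrev W := List Bool

def Dn (ρ : W) (p : ℕ) (S : Set W) : Prop :=
  ∀ v : W, v.length = p → ρ <+: v → ∃ y ∈ S, v <+: y

theorem ext_len (v : W) {p : ℕ} (h : v.length ≤ p) : ∃ u : W, u.length = p ∧ v <+: u :=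
  ⟨v ++ List.replicate (p - v.length) false, by simp only [List.length_append, List.length_replicate]; omega, List.prefix_append _ _⟩

theorem Dn.mono {ρ : W} {p q : ℕ} {S : Set W} (h : Dn ρ p S) (hq : q ≤ p) : Dn ρ q S := by
  intro v hv hρ
  obtain ⟨u, hu, hvu⟩ := ext_len v (p := p) (by omega)
  obtain ⟨y, hy, huy⟩ := h u hu (hρ.trans hvu)
  exact ⟨y, hy, hvu.trans huy⟩

variable {ι : Type} [DecidableEq ι]

abbrev Pr (ι : Type) := (ι → W) → (ι → Set W) → (ι → Set W) → (ι → W) → Prop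

def Good (T : Pr ι) : Prop := ∀ a a' A A' B B' x, (∀ i, a i <+: a' i) → (∀ i, A i ⊆ A' i) →
  (∀ i, B' i ⊆ B i) → T a' A' B' x → T a A B x

def Ind (T : Pr ι) (d : ι) : Prop := ∀ a A B x v S, T a A B x → T (update a d v) (update A d S) B x

def exQ (i : ι) (T : Pr ι) : Pr ι := fun a A B x => ∃ y ∈ B i, a i <+: y ∧ T a A B (update x i y)

def alQ (i : ι) (T : Pr ι) : Pr ι := fun a A B x => ∀ y ∈ A i, T a A B (update x i y)

def exL : List ι → Pr ι → Pr ι
  | [], T => T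
  | d :: I, T => exL I (exQ d T)

def alL : List ι → Pr ι → Pr ι
  | [], T => T
  | d :: I, T => alL I (alQ d T)

def upd : List ι → (ι → W) → (ι → W) → ι → W
  | [], _, x => x
  | d :: I, y, x => update (upd I y x) d (y d)

theorem Good.exQ {T : Pr ι} (h : Good T) (i : ι) : Good (exQ i T) := by
  rintro a a' A A' B B' x h1 h2 h3 ⟨y, hy, hay, hT⟩
  exact ⟨y, h3 i hy, (h1 i).trans hay, h _ _ _ _ _ _ _ h1 h2 h3 hT⟩

theorem Good.alQ {T : Pr ι} (h : Good T) (i : ι) : Good (alQ i T) :=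
  fun _ _ _ _ _ _ _ h1 h2 h3 hT y hy => h _ _ _ _ _ _ _ h1 h2 h3 (hT y (h2 i hy))

theorem Good.exL : ∀ (I : List ι) {T : Pr ι}, Good T → Good (exL I T)
  | [], _, h => h
  | d :: I, _, h => Good.exL I (h.exQ d)

theorem Ind.exQ {T : Pr ι} {d i : ι} (h : Ind T d) (hi : i ≠ d) : Ind (exQ i T) d := by
  rintro a A B x v S ⟨y, hy, hay, hT⟩
  exact ⟨y, hy, by rwa [update_of_ne hi], h _ _ _ _ _ _ hT⟩

theorem Ind.alQ {T : Pr ι} {d i : ι} (h : Ind T d) (hi : i ≠ d) : Ind (alQ i T) d := by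
  intro a A B x v S hT y hy
  rw [update_of_ne hi] at hy
  exact h _ _ _ _ _ _ (hT y hy)

theorem alL_out {a : ι → W} {A B : ι → Set W} {x y : ι → W} : ∀ (I : List ι) {T : Pr ι},
    alL I T a A B x → (∀ i ∈ I, y i ∈ A i) → T a A B (upd I y x)
  | [], _, h, _ => h
  | d :: I, _, h, hy =>
    alL_out I h (fun i hi => hy i (List.mem_cons_of_mem _ hi)) _ (hy d List.mem_cons_self)

theorem exL_in {a : ι → W} {A B : ι → Set W} {x y : ι → W} : ∀ (I : List ι) {T : Pr ι},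
    T a A B (upd I y x) → (∀ i ∈ I, y i ∈ B i ∧ a i <+: y i) → exL I T a A B x
  | [], _, h, _ => h
  | d :: I, _, h, hy =>
    exL_in I ⟨y d, (hy d List.mem_cons_self).1, (hy d List.mem_cons_self).2, h⟩
      fun i hi => hy i (List.mem_cons_of_mem _ hi)

theorem upd_mem {x y : ι → W} {i : ι} : ∀ I : List ι, i ∈ I → upd I y x i = y i
  | [], h => by simp at h
  | d :: I, h => by
    by_cases hd : i = d
    · subst hd; simp [upd]
    · rw [upd, update_of_ne hd]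
      exact upd_mem I ((List.mem_cons.1 h).resolve_left hd)

variable (𝓑 : Set (ι → Set W)) (ρ : ι → W)

def Lv (N : ℕ) (a : ι → W) : Prop := ∀ i, (a i).length = N ∧ ρ i <+: a i

def Gs (T : Pr ι) : Prop := ∀ N, ∃ p, ∀ B ∈ 𝓑, (∀ i, Dn (ρ i) p (B i)) →
  ∃ A : ι → Set W, (∀ i, A i ⊆ B i ∧ Dn (ρ i) N (A i)) ∧ ∀ a, Lv ρ N a → T a A B ρ

def Gw (T : Pr ι) : Prop := ∀ N, ∃ p, ∀ B ∈ 𝓑, (∀ i, Dn (ρ i) p (B i)) → ∀ a, Lv ρ N a →
  ∃ A : ι → Set W, (∀ i, A i ⊆ B i ∧ Dn (ρ i) N (A i)) ∧ T a A B ρ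

variable {𝓑 ρ}

omit [DecidableEq ι] in
theorem lv_fin [Finite ι] (N : ℕ) : {a | Lv ρ N a}.Finite :=
  (Finite.pi' fun _ : ι => List.finite_length_eq Bool N).subset fun _ h i => (h i).1

omit [DecidableEq ι] in
theorem Gw.strong [Finite ι] (her : ∀ B ∈ 𝓑, ∀ A : ι → Set W, (∀ i, A i ⊆ B i) → A ∈ 𝓑)
    {T : Pr ι} (hT : Good T) (h : Gw 𝓑 ρ T) : Gs 𝓑 ρ T := by
  intro N
  have key : ∀ s : Set (ι → W), s.Finite → (∀ a ∈ s, Lv ρ N a) → ∃ p, N ≤ p ∧ ∀ B ∈ 𝓑,
      (∀ i, Dn (ρ i) p (B i)) → ∃ A : ι → Set W, (∀ i, A i ⊆ B i ∧ Dn (ρ i) N (A i)) ∧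
        ∀ a ∈ s, T a A B ρ := by
    intro s hs
    induction s, hs using Set.Finite.induction_on with
    | empty => exact fun _ => ⟨N, le_rfl, fun B _ hB => ⟨B, fun i => ⟨subset_rfl, hB i⟩, by simp⟩⟩
    | @insert a s _ _ ih =>
      intro hl
      obtain ⟨p, hNp, hp⟩ := ih fun b hb => hl b (mem_insert_of_mem _ hb)
      obtain ⟨q, hq⟩ := h p
      have ha := hl a (mem_insert _ _)
      choose a' h1 h2 using fun i => ext_len (a i) (p := p) (by rw [(ha i).1]; exact hNp)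
      refine ⟨max q N, le_max_right _ _, fun B hB hd => ?_⟩
      obtain ⟨A', hA', hTa⟩ := hq B hB (fun i => (hd i).mono (le_max_left _ _)) a'
        fun i => ⟨h1 i, (ha i).2.trans (h2 i)⟩
      obtain ⟨A, hA, hs⟩ := hp A' (her B hB A' fun i => (hA' i).1) fun i => (hA' i).2
      refine ⟨A, fun i => ⟨(hA i).1.trans (hA' i).1, (hA i).2⟩, ?_⟩
      rintro b (rfl | hb)
      · exact hT _ _ _ _ _ _ _ h2 (fun i => (hA i).1) (fun _ => subset_rfl) hTa
      · exact hT _ _ _ _ _ _ _ (fun _ => List.prefix_rfl) (fun _ => subset_rfl)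
          (fun i => (hA' i).1) (hs b hb)
  obtain ⟨p, -, hp⟩ := key _ (lv_fin N) fun _ h => h
  exact ⟨p, fun B hB hd => hp B hB hd⟩

theorem swap {T : Pr ι} {d : ι} (hd : Ind T d) {I : List ι} (h : Gs 𝓑 ρ (alL I (exQ d T))) :
    Gw 𝓑 ρ (exL I (alQ d T)) := by
  intro N
  obtain ⟨p, hp⟩ := h N
  refine ⟨p, fun B hB hD a ha => ?_⟩
  obtain ⟨A, hA, hs⟩ := hp B hB hD
  choose y hy hay using fun i => (hA i).2 (a i) (ha i).1 (ha i).2
  let S : Set W := {z | z ∈ B d ∧ ∃ v, T (update a d v) A B (update (upd I y ρ) d z)}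
  refine ⟨update A d S, fun i => ?_, exL_in (y := y) I ?_ fun i _ => ⟨(hA i).1 (hy i), hay i⟩⟩
  · by_cases hi : i = d
    · subst hi
      rw [update_self]
      refine ⟨fun z hz => hz.1, fun v hv hρ => ?_⟩
      have hl : Lv ρ N (update a i v) := fun j => by
        by_cases hj : j = i
        · subst hj; rw [update_self]; exact ⟨hv, hρ⟩
        · rw [update_of_ne hj]; exact ha j
      obtain ⟨z, hz, hvz, hT⟩ := alL_out (y := y) I (hs _ hl) fun j _ => hy j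
      rw [update_self] at hvz
      exact ⟨z, ⟨hz, v, hT⟩, hvz⟩
    · rw [update_of_ne hi]; exact hA i
  · intro z hz
    rw [update_self] at hz
    obtain ⟨-, v, hT⟩ := hz
    simpa using hd _ _ _ _ (a d) S hT

theorem gs_main [Finite ι] (her : ∀ B ∈ 𝓑, ∀ A : ι → Set W, (∀ i, A i ⊆ B i) → A ∈ 𝓑) :
    ∀ I : List ι, I.Nodup → ∀ T : Pr ι, Good T → (∀ d ∈ I, Ind T d) →
      Gs 𝓑 ρ (exL I T) → Gs 𝓑 ρ (alL I T)
  | [], _, _, _, _, h => h
  | d :: I, hI, T, hT, hi, h => by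
    obtain ⟨hd, hI⟩ := List.nodup_cons.1 hI
    have hne : ∀ i ∈ I, d ≠ i := fun i hi e => hd (e ▸ hi)
    have h1 := gs_main her I hI _ (hT.exQ d)
      (fun i h => (hi i (List.mem_cons_of_mem _ h)).exQ (hne i h)) h
    have h2 := (swap (hi d List.mem_cons_self) h1).strong her (Good.exL I (hT.alQ d))
    exact gs_main her I hI _ (hT.alQ d)
      (fun i h => (hi i (List.mem_cons_of_mem _ h)).alQ (hne i h)) h2

theorem halpern [Finite ι] (her : ∀ B ∈ 𝓑, ∀ A : ι → Set W, (∀ i, A i ⊆ B i) → A ∈ 𝓑)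
    (hB : ∀ p, ∃ B ∈ 𝓑, ∀ i, Dn (ρ i) p (B i)) (K : Set (ι → W)) :
    ∃ (σ : ι → W) (K' : Set (ι → W)), (K' = K ∨ K' = Kᶜ) ∧ (∀ i, ρ i <+: σ i) ∧
      ∀ p, ∃ B ∈ 𝓑, (∀ i, Dn (σ i) p (B i)) ∧ ∀ y : ι → W, (∀ i, y i ∈ B i) → y ∈ K' := by
  by_cases H : ∀ N, ∃ p, ∀ B ∈ 𝓑, (∀ i, Dn (ρ i) p (B i)) → ∀ a, Lv ρ N a →
      ∃ y : ι → W, (∀ i, y i ∈ B i ∧ a i <+: y i) ∧ y ∈ K
  · have := Fintype.ofFinite ι
    let I := (Finset.univ : Finset ι).toList
    have hI : ∀ (y : ι → W), upd I y ρ = y := fun y => funext fun i => upd_mem I (by simp only [I, Finset.mem_toList, Finset.mem_univ])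
    have hT : Good (fun _ _ _ x => x ∈ K : Pr ι) := fun _ _ _ _ _ _ _ _ _ _ h => h
    have hw : Gw 𝓑 ρ (exL I fun _ _ _ x => x ∈ K) := fun N => by
      obtain ⟨p, hp⟩ := H N
      refine ⟨max p N, fun B hB hd a ha => ?_⟩
      obtain ⟨y, hy, hK⟩ := hp B hB (fun i => (hd i).mono (le_max_left _ _)) a ha
      exact ⟨B, fun i => ⟨subset_rfl, (hd i).mono (le_max_right _ _)⟩,
        exL_in (y := y) I (by rw [hI]; exact hK) fun i _ => hy i⟩
    have hs := gs_main her I (Finset.nodup_toList _) _ hT (fun _ _ _ _ _ _ _ _ h => h)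
      (hw.strong her (Good.exL I hT))
    refine ⟨ρ, K, Or.inl rfl, fun _ => List.prefix_rfl, fun N => ?_⟩
    obtain ⟨M, hM⟩ := Finite.exists_le fun i => (ρ i).length
    obtain ⟨p, hp⟩ := hs (max N M)
    obtain ⟨B, hB, hd⟩ := hB p
    obtain ⟨A, hA, hs⟩ := hp B hB hd
    choose a h1 h2 using fun i => ext_len (ρ i) (p := max N M) ((hM i).trans (le_max_right _ _))
    refine ⟨A, her B hB A fun i => (hA i).1, fun i => (hA i).2.mono (le_max_left _ _),
      fun y hy => ?_⟩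
    have := alL_out (y := y) I (hs a fun i => ⟨h1 i, h2 i⟩) fun i _ => hy i
    rwa [hI] at this
  · push Not at H
    obtain ⟨N, H⟩ := H
    choose B hB hd a ha hK using H
    have := (lv_fin (ρ := ρ) N).to_subtype
    obtain ⟨σ, hσ⟩ := Finite.exists_infinite_fiber
      fun p => (⟨a p, ha p⟩ : {a | Lv ρ N a})
    refine ⟨σ.1, Kᶜ, Or.inr rfl, fun i => (σ.2 i).2, fun p => ?_⟩
    obtain ⟨q, hq, hpq⟩ := (infinite_coe_iff.1 hσ).exists_gt p
    have e : a q = σ.1 := congrArg Subtype.val hq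
    refine ⟨fun i => {y | y ∈ B q i ∧ σ.1 i <+: y}, her _ (hB q) _ fun i y hy => hy.1,
      fun i v hv hσv => ?_, fun y hy => hK q y fun i => ⟨(hy i).1, e ▸ (hy i).2⟩⟩
    obtain ⟨y, hy, hvy⟩ := (hd q i).mono hpq.le v hv ((σ.2 i).2.trans hσv)
    exact ⟨y, ⟨hy, hσv.trans hvy⟩, hvy⟩

end Pool.Agent.MP_8067b8_lc.H6

end

-- part MP_8067b8_lc.H6.Space
section

/-! The space of dense systems: definition and the easy axioms. -/

set_option autoImplicit false

open Set Function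

namespace Pool.Agent.MP_8067b8_lc.H6

abbrev St := ℕ × Finset W

def lev (A : ℕ → St) : ℕ → ℕ
  | 0 => 0
  | n + 1 => (A n).1

def Step (l : ℕ) (s : St) : Prop :=
  l < s.1 ∧ (∀ x ∈ s.2, x.length = s.1) ∧ ∀ w : W, w.length = l → ∃! x, x ∈ s.2 ∧ w <+: x

abbrev Sp : Type := {A : ℕ → St // ∀ n, Step (lev A n) (A n)}

def Al (A : ℕ → St) (l : ℕ) (s : St) : Prop :=
  ∃ d n, d ≤ n ∧ lev A d = l ∧ (A n).1 = s.1 ∧ s.2 ⊆ (A n).2 ∧ ∀ x ∈ s.2, ∃ y ∈ (A d).2, y <+: x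

abbrev Ap : Type := {a : List St // ∃ (n : ℕ) (A : Sp), a = (List.range n).map A.1}

def DS : Pre Sp Ap where
  le B A := ∀ k, Al A.1 (lev B.1 k) (B.1 k)
  r n A := ⟨(List.range n).map A.1, n, A, rfl⟩
  lef a b := ∃ (A B : Sp) (n m : ℕ), a.1 = (List.range n).map A.1 ∧
    b.1 = (List.range m).map B.1 ∧ lev A.1 n = lev B.1 m ∧ ∀ k < n, Al B.1 (lev A.1 k) (A.1 k)

theorem pre_eq {u v x : W} (hu : u <+: x) (hv : v <+: x) (h : u.length = v.length) : u = v :=
  (List.prefix_of_prefix_length_le hu hv h.le).eq_of_length h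

theorem map_eq {n m : ℕ} {A B : ℕ → St} :
    (List.range n).map A = (List.range m).map B ↔ n = m ∧ ∀ k < n, A k = B k := by
  constructor
  · intro h
    have e : n = m := by simpa using congrArg List.length h
    subst e
    exact ⟨rfl, fun k hk => List.map_inj_left.1 h k (List.mem_range.2 hk)⟩
  · rintro ⟨rfl, h⟩
    exact List.map_inj_left.2 fun k hk => h k (List.mem_range.1 hk)

theorem r_eq {n m : ℕ} {A B : Sp} : DS.r n A = DS.r m B ↔ n = m ∧ ∀ k < n, A.1 k = B.1 k :=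
  Subtype.ext_iff.trans map_eq

theorem Ap.ex (a : Ap) : ∃ n A, DS.r n A = a := by
  obtain ⟨a, n, A, rfl⟩ := a
  exact ⟨n, A, rfl⟩

theorem Sp.mono (A : Sp) : StrictMono (lev A.1) := strictMono_nat_of_lt_succ fun n => (A.2 n).1

theorem lev_congr {A B : ℕ → St} {n : ℕ} (h : ∀ k < n, A k = B k) :
    ∀ {k : ℕ}, k ≤ n → lev A k = lev B k
  | 0, _ => rfl
  | k + 1, hk => congrArg Prod.fst (h k hk)

theorem Al.transfer {B : Sp} {B' : ℕ → St} {l m : ℕ} {s : St} (h : Al B.1 l s)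
    (hs : s.1 ≤ lev B.1 m) (e : ∀ k < m, B.1 k = B' k) : Al B' l s := by
  obtain ⟨d, n, hdn, h1, h2, h3, h4⟩ := h
  have hn : n + 1 ≤ m := B.mono.le_iff_le.1 (h2.le.trans hs)
  rw [e n hn] at h2 h3
  rw [e d (by omega)] at h4
  exact ⟨d, n, hdn, (lev_congr e (by omega)).symm.trans h1, h2, h3, h4⟩

theorem Al.refl (A : ℕ → St) (k : ℕ) : Al A (lev A k) (A k) :=
  ⟨k, k, le_rfl, rfl, rfl, subset_rfl, fun x hx => ⟨x, hx, List.prefix_rfl⟩⟩

theorem Al.trans {A B : Sp} {l : ℕ} {s : St} (h : Al B.1 l s)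
    (hs : ∀ k, lev B.1 (k + 1) ≤ s.1 → Al A.1 (lev B.1 k) (B.1 k)) : Al A.1 l s := by
  obtain ⟨d, n, hdn, h1, h2, h3, h4⟩ := h
  have hd : lev B.1 (d + 1) ≤ lev B.1 (n + 1) := B.mono.monotone (by omega)
  obtain ⟨d', -, -, k1, -, -, k4⟩ := hs d (hd.trans h2.le)
  obtain ⟨-, n', -, -, k2, k3, -⟩ := hs n h2.le
  have : d' < n' + 1 := A.mono.lt_iff_lt.1 (by
    rw [k1]; exact (B.mono (show d < n + 1 by omega)).trans_le k2.ge)
  refine ⟨d', n', by omega, k1.trans h1, k2.trans h2, h3.trans k3, fun x hx => ?_⟩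
  obtain ⟨y, hy, hyx⟩ := h4 x hx
  obtain ⟨z, hz, hzy⟩ := k4 y hy
  exact ⟨z, hz, hzy.trans hyx⟩

theorem lef_iff {n m : ℕ} {A B : Sp} : DS.lef (DS.r n A) (DS.r m B) ↔
    lev A.1 n = lev B.1 m ∧ ∀ k < n, Al B.1 (lev A.1 k) (A.1 k) := by
  refine ⟨?_, fun h => ⟨A, B, n, m, rfl, rfl, h⟩⟩
  rintro ⟨A', B', n', m', g1, g2, h3, h4⟩
  obtain ⟨rfl, h1⟩ := map_eq.1 g1
  obtain ⟨rfl, h2⟩ := map_eq.1 g2
  refine ⟨(lev_congr h1 le_rfl).trans (h3.trans (lev_congr h2 le_rfl).symm), fun k hk => ?_⟩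
  rw [lev_congr h1 hk.le, h1 k hk]
  refine (h4 k hk).transfer (m := m) ?_ fun j hj => (h2 j hj).symm
  rw [← h3]
  exact A'.mono.monotone (show k + 1 ≤ n from hk)

theorem le_lev {A B : Sp} : ∀ n : ℕ, (∀ k < n, Al B.1 (lev A.1 k) (A.1 k)) →
    ∃ m, lev A.1 n = lev B.1 m
  | 0, _ => ⟨0, rfl⟩
  | n + 1, h => by
    obtain ⟨-, m, -, -, h2, -⟩ := h n n.lt_succ_self
    exact ⟨m + 1, h2.symm⟩

/-! gluing -/

def glue (n : ℕ) (A G : ℕ → St) : ℕ → St := fun k => if k < n then A k else G (k - n)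

def tl (l : ℕ) (G : ℕ → St) : ℕ → ℕ
  | 0 => l
  | t + 1 => (G t).1

theorem glue_lt {n k : ℕ} {A G : ℕ → St} (h : k < n) : glue n A G k = A k := if_pos h

theorem glue_add {n t : ℕ} {A G : ℕ → St} : glue n A G (n + t) = G t := by
  simp [glue]

theorem lev_glue_le {n k : ℕ} {A G : ℕ → St} (h : k ≤ n) : lev (glue n A G) k = lev A k :=
  lev_congr (fun _ => glue_lt) h

theorem lev_glue {n : ℕ} {A G : ℕ → St} : ∀ t, lev (glue n A G) (n + t) = tl (lev A n) G t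
  | 0 => lev_glue_le le_rfl
  | t + 1 => congrArg Prod.fst (glue_add (t := t))

theorem glue_all {n : ℕ} {A G : ℕ → St} {P : ℕ → St → Prop} (h1 : ∀ k < n, P (lev A k) (A k))
    (h2 : ∀ t, P (tl (lev A n) G t) (G t)) (k : ℕ) : P (lev (glue n A G) k) (glue n A G k) := by
  rcases lt_or_ge k n with h | h
  · rw [glue_lt h, lev_glue_le h.le]; exact h1 k h
  · obtain ⟨t, rfl⟩ := Nat.exists_eq_add_of_le h
    rw [glue_add, lev_glue]; exact h2 t

def Sp.glue (n : ℕ) (A : Sp) (G : ℕ → St) (h : ∀ t, Step (tl (lev A.1 n) G t) (G t)) : Sp :=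
  ⟨H6.glue n A.1 G, glue_all (fun k _ => A.2 k) h⟩

theorem tl_tail {l m : ℕ} {B : ℕ → St} (h : l = lev B m) :
    ∀ t, tl l (fun t => B (m + t)) t = lev B (m + t)
  | 0 => h
  | _ + 1 => rfl

def Sp.cat (n : ℕ) (A : Sp) (m : ℕ) (B : Sp) (h : lev A.1 n = lev B.1 m) : Sp :=
  A.glue n (fun t => B.1 (m + t)) fun t => by rw [tl_tail h]; exact B.2 _

theorem cat_r {n m : ℕ} {A B : Sp} (h : lev A.1 n = lev B.1 m) :
    DS.r n (A.cat n m B h) = DS.r n A := r_eq.2 ⟨rfl, fun _ hk => glue_lt (G := fun t => B.1 (m + t)) hk⟩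

theorem cat_le {n m : ℕ} {A B C : Sp} (h : lev A.1 n = lev B.1 m)
    (h1 : ∀ k < n, Al C.1 (lev A.1 k) (A.1 k)) (h2 : ∀ k, Al C.1 (lev B.1 k) (B.1 k)) :
    DS.le (A.cat n m B h) C :=
  glue_all (P := Al C.1) h1 fun t => by rw [tl_tail h]; exact h2 _

theorem cat_al {n m l : ℕ} {A B : Sp} {s : St} (h : lev A.1 n = lev B.1 m)
    (hs : Al (A.cat n m B h).1 l s) (hl : lev A.1 n ≤ l) : Al B.1 l s := by
  obtain ⟨d, j, hdj, h1, h2, h3, h4⟩ := hs
  have hd : n ≤ d := (A.cat n m B h).mono.le_iff_le.1 (by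
    rw [h1]; exact (lev_glue_le le_rfl).trans_le hl)
  obtain ⟨d, rfl⟩ := Nat.exists_eq_add_of_le hd
  obtain ⟨j, rfl⟩ := Nat.exists_eq_add_of_le (hd.trans hdj)
  have e : ∀ t, (A.cat n m B h).1 (n + t) = B.1 (m + t) := fun t =>
    glue_add (G := fun t => B.1 (m + t))
  rw [e] at h2 h3 h4
  exact ⟨m + d, m + j, by omega, ((lev_glue d).trans (tl_tail h d)).symm.trans h1, h2, h3, h4⟩

theorem cube_ne {k n : ℕ} {C A : Sp} (h : DS.lef (DS.r k C) (DS.r n A)) :
    (DS.cube (DS.r k C) A).Nonempty :=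
  ⟨C.cat k n A (lef_iff.1 h).1, cat_le _ (lef_iff.1 h).2 (Al.refl _), k, cat_r _⟩

theorem cube_r {n : ℕ} {A B : Sp} (h : A ∈ DS.cube (DS.r n B) B) : DS.r n A = DS.r n B := by
  obtain ⟨-, m, hm⟩ := h
  obtain rfl := (r_eq.1 hm).1
  exact hm

/-! rows -/

noncomputable def words (l : ℕ) : Finset W := (List.finite_length_eq Bool l).toFinset

theorem mem_words {l : ℕ} {w : W} : w ∈ words l ↔ w.length = l := by simp [words]

noncomputable def mkRow (l m : ℕ) (f : W → W) : St := (m, (words l).image f)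

theorem mem_row {l m : ℕ} {f : W → W} {x : W} :
    x ∈ (mkRow l m f).2 ↔ ∃ v : W, v.length = l ∧ f v = x := by
  simp [mkRow, mem_words]

theorem step_row {l m : ℕ} {f : W → W} (h : l < m)
    (hf : ∀ v : W, v.length = l → v <+: f v ∧ (f v).length = m) : Step l (mkRow l m f) := by
  refine ⟨h, fun x hx => ?_, fun w hw => ⟨f w, ⟨mem_row.2 ⟨w, hw, rfl⟩, (hf w hw).1⟩, ?_⟩⟩
  · obtain ⟨v, hv, rfl⟩ := mem_row.1 hx
    exact (hf v hv).2
  · rintro x ⟨hx, hwx⟩
    obtain ⟨v, hv, rfl⟩ := mem_row.1 hx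
    rw [pre_eq (hf v hv).1 hwx (hv.trans hw.symm)]

theorem Step.uniq {l : ℕ} {s s' : St} (h : Step l s) (h' : Step l s')
    (e : ∀ w : W, w.length = l → ∃ y, w <+: y ∧ y ∈ s.2 ∧ y ∈ s'.2) : s = s' := by
  have key : ∀ {s s' : St}, Step l s →
      (∀ w : W, w.length = l → ∃ y, w <+: y ∧ y ∈ s.2 ∧ y ∈ s'.2) → s.2 ⊆ s'.2 := by
    intro s s' h e x hx
    have hl : (x.take l).length = l := by
      rw [List.length_take, h.2.1 x hx]; exact min_eq_left h.1.le
    obtain ⟨y, h1, h2, h3⟩ := e _ hl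
    rwa [(h.2.2 _ hl).unique ⟨hx, List.take_prefix _ _⟩ ⟨h2, h1⟩]
  obtain ⟨y, -, h2, h3⟩ := e (List.replicate l false) (by simp)
  refine Prod.ext ((h.2.1 y h2).symm.trans (h'.2.1 y h3)) (Finset.Subset.antisymm (key h e)
    (key h' fun w hw => ?_))
  obtain ⟨y, h1, h2, h3⟩ := e w hw
  exact ⟨y, h1, h3, h2⟩

theorem Sp.up (A : Sp) {n : ℕ} (v : W) (h : v.length ≤ lev A.1 n) : ∃ x ∈ (A.1 n).2, v <+: x := by
  obtain ⟨u, hu, hvu⟩ := ext_len v h
  obtain ⟨x, ⟨hx, hux⟩, -⟩ := (A.2 n).2.2 u hu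
  exact ⟨x, hx, hvu.trans hux⟩

theorem Sp.up2 (A : Sp) {d n : ℕ} (hdn : d ≤ n) (v : W) (h : v.length = lev A.1 d) :
    ∃ x ∈ (A.1 n).2, ∃ y ∈ (A.1 d).2, v <+: y ∧ y <+: x := by
  obtain ⟨y, hy, hvy⟩ := A.up v h.le
  rcases hdn.eq_or_lt with rfl | hlt
  · exact ⟨y, hy, y, hy, hvy, List.prefix_rfl⟩
  · obtain ⟨x, hx, hyx⟩ := A.up (n := n) y (by
      rw [(A.2 d).2.1 y hy]; exact A.mono.monotone (show d + 1 ≤ n from hlt))
    exact ⟨x, hx, y, hy, hvy, hyx⟩

theorem sp_ne : Nonempty Sp := by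
  refine ⟨⟨fun n => mkRow n (n + 1) fun v => v ++ [false], fun n => ?_⟩⟩
  have : lev (fun n => mkRow n (n + 1) fun v => v ++ [false]) n = n := by cases n <;> rfl
  rw [this]
  exact step_row n.lt_succ_self fun v hv => ⟨List.prefix_append _ _, by simp [hv]⟩

theorem ds_a21 (b : Ap) : {a | DS.lef a b}.Finite := by
  obtain ⟨m, B, rfl⟩ := b.ex
  set M := lev B.1 m
  let F : Set St := Iic M ×ˢ ((List.finite_length_le Bool M).toFinset.powerset : Set (Finset W))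
  have hF : F.Finite := (finite_Iic M).prod (Finset.finite_toSet _)
  have := hF.to_subtype
  refine Finite.of_finite_image (f := Subtype.val)
    (((List.finite_length_le F M).image (List.map Subtype.val)).subset ?_)
    Subtype.val_injective.injOn
  rintro _ ⟨a, ha, rfl⟩
  obtain ⟨n, A, rfl⟩ := Ap.ex a
  have h1 : lev A.1 n = M := (lef_iff.1 ha).1
  have h2 : ∀ s ∈ (List.range n).map A.1, s ∈ F := by
    intro s hs
    obtain ⟨k, hk, rfl⟩ := List.mem_map.1 hs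
    have : (A.1 k).1 ≤ M := by
      rw [← h1]; exact A.mono.monotone (show k + 1 ≤ n from List.mem_range.1 hk)
    refine ⟨this, ?_⟩
    simp only [Finset.coe_powerset, mem_preimage, mem_powerset_iff, Finite.coe_toFinset]
    intro x hx
    exact ((A.2 k).2.1 x hx).le.trans this
  refine ⟨((List.range n).map A.1).attachWith _ h2, ?_, List.attachWith_map_subtype_val h2⟩
  simp only [mem_ofPred_eq, List.length_attachWith, List.length_map, List.length_range]
  rw [← h1]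
  exact A.mono.le_apply

theorem ds_closed : @IsClosed (ℕ → Ap) (Pre.seqTop Ap) (range fun A n => DS.r n A) := by
  let : TopologicalSpace Ap := ⊥
  have : DiscreteTopology Ap := ⟨rfl⟩
  change IsClosed _
  refine isClosed_of_closure_subset fun f hf => ?_
  have : ∀ n, ∃ A : Sp, ∀ k ≤ n, DS.r k A = f k := by
    intro n
    have ho : IsOpen {g : ℕ → Ap | ∀ k ∈ Iic n, g k = f k} := by
      simp only [ofPred_forall]
      exact (finite_Iic n).isOpen_biInter fun k _ =>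
        (isOpen_discrete ({f k} : Set Ap)).preimage (continuous_apply (A := fun _ => Ap) k)
    obtain ⟨_, h1, A, rfl⟩ := mem_closure_iff.1 hf _ ho fun _ _ => rfl
    exact ⟨A, h1⟩
  choose A hA using this
  have e : ∀ n k, k < n → (A (k + 1)).1 k = (A n).1 k := fun n k hk =>
    (r_eq.1 ((hA (k + 1) (k + 1) le_rfl).trans (hA n (k + 1) hk).symm)).2 k k.lt_succ_self
  refine ⟨⟨fun k => (A (k + 1)).1 k, fun n => ?_⟩, funext fun n => ?_⟩
  · rw [lev_congr (e (n + 1)) n.le_succ]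
    exact (A (n + 1)).2 n
  · exact (r_eq.2 ⟨rfl, e n⟩).trans (hA n n le_rfl)

end Pool.Agent.MP_8067b8_lc.H6

end

-- part MP_8067b8_lc.H6.A4
section

/-! The pigeonhole principle A.4 for the space of dense systems; it is a topological Ramsey space. -/

set_option autoImplicit false

open Set Function

namespace Pool.Agent.MP_8067b8_lc.H6

theorem ds_thin (B : Sp) (n : ℕ) (K : Set ({w : W // w.length = lev B.1 n} → W)) :
    ∃ A ∈ DS.cube (DS.r n B) B, ∃ K', (K' = K ∨ K' = Kᶜ) ∧ ∀ s, Al A.1 (lev B.1 n) s →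
      ∀ y : {w : W // w.length = lev B.1 n} → W, (∀ w, w.1 <+: y w ∧ y w ∈ s.2) → y ∈ K' := by
  classical
  have : Finite {w : W // w.length = lev B.1 n} := (List.finite_length_eq Bool _).to_subtype
  choose ρ hρ hwρ using fun w : {w : W // w.length = lev B.1 n} => B.up w.1 w.2.le
  obtain ⟨σ, K', hK', hρσ, hX⟩ := halpern (ρ := ρ)
    (𝓑 := {X | ∃ j, ∀ w, X w ⊆ {x | x ∈ (B.1 j).2 ∧ ρ w <+: x}})
    (fun X ⟨j, hj⟩ A hA => ⟨j, fun w => (hA w).trans (hj w)⟩)
    (fun p => ⟨fun w => {x | x ∈ (B.1 p).2 ∧ ρ w <+: x}, ⟨p, fun _ => subset_rfl⟩,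
      fun w v hv h => by
        obtain ⟨x, hx, hvx⟩ := B.up (n := p) v (hv.le.trans B.mono.le_apply)
        exact ⟨x, ⟨hx, h.trans hvx⟩, hvx⟩⟩) K
  obtain ⟨M, hM⟩ := Finite.exists_le fun w => (σ w).length
  choose X hXB hXd hXK using fun e => hX (max (lev B.1 (e + 1)) M)
  choose j hj using hXB
  have hσ : ∀ e w, ∃ x ∈ X e w, σ w <+: x ∧ lev B.1 (e + 1) ≤ x.length := by
    intro e w
    obtain ⟨u, hu, h⟩ := ext_len (σ w) (p := max (lev B.1 (e + 1)) M)
      ((hM w).trans (le_max_right _ _))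
    obtain ⟨x, hx, hux⟩ := hXd e w u hu h
    exact ⟨x, hx, h.trans hux, (le_max_left _ _).trans (hu.ge.trans hux.length_le)⟩
  have hej : ∀ e, e ≤ j e := by
    intro e
    obtain ⟨x, hx, -, h⟩ := hσ e ⟨List.replicate (lev B.1 n) false, by simp⟩
    rw [(B.2 _).2.1 x (hj e _ hx).1] at h
    exact Nat.le_of_succ_le_succ (B.mono.le_iff_le.1 (show _ ≤ lev B.1 (j e + 1) from h))
  have hf : ∀ e (v : W), ∃ x, v.length = lev B.1 e → x ∈ (B.1 (j e)).2 ∧
      (∃ y ∈ (B.1 e).2, v <+: y ∧ y <+: x) ∧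
        ∀ w, (σ w <+: v ∨ v = w.1) → x ∈ X e w ∧ σ w <+: x := by
    intro e v
    by_cases hv : v.length = lev B.1 e
    swap
    · exact ⟨v, fun h => absurd h hv⟩
    by_cases h : ∃ w, σ w <+: v ∨ v = w.1
    · obtain ⟨w, hw⟩ := h
      have p1 : ∀ w', (σ w' <+: v ∨ v = w'.1) → w'.1 <+: v := fun w' h =>
        h.elim (fun h => (hwρ w').trans ((hρσ w').trans h)) fun h => h ▸ List.prefix_rfl
      have u : ∀ w', (σ w' <+: v ∨ v = w'.1) → w' = w := fun w' h =>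
        Subtype.ext (pre_eq (p1 w' h) (p1 w hw) (w'.2.trans w.2.symm))
      suffices ∃ x ∈ X e w, σ w <+: x ∧ ∃ y ∈ (B.1 e).2, v <+: y ∧ y <+: x by
        obtain ⟨x, hx, h1, h2⟩ := this
        exact ⟨x, fun _ => ⟨(hj e w hx).1, h2, fun w' h => u w' h ▸ ⟨hx, h1⟩⟩⟩
      rcases hw with hw | hw
      · obtain ⟨y, hy, hvy⟩ := B.up v hv.le
        obtain ⟨x, hx, hyx⟩ := (hXd e w).mono (le_max_left _ _) y ((B.2 e).2.1 y hy)
          (hw.trans hvy)
        exact ⟨x, hx, hw.trans (hvy.trans hyx), y, hy, hvy, hyx⟩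
      · obtain rfl : e = n := B.mono.injective (by rw [← hv, hw, w.2])
        obtain ⟨x, hx, h, -⟩ := hσ e w
        exact ⟨x, hx, h, ρ w, hρ w, hw ▸ hwρ w, (hρσ w).trans h⟩
    · obtain ⟨x, hx, h2⟩ := B.up2 (hej e) v hv
      exact ⟨x, fun _ => ⟨hx, h2, fun w hw => absurd ⟨w, hw⟩ h⟩⟩
  choose f hf using hf
  let e : ℕ → ℕ := fun t => (fun a => j a + 1)^[t] n
  have he : ∀ t, e (t + 1) = j (e t) + 1 := fun t => iterate_succ_apply' _ _ _
  let G : ℕ → St := fun t => mkRow (lev B.1 (e t)) (lev B.1 (j (e t) + 1)) (f (e t))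
  have ht : ∀ t, tl (lev B.1 n) G t = lev B.1 (e t) := fun t => by
    cases t with
    | zero => rfl
    | succ t => rw [he]; rfl
  have hG : ∀ t, Step (tl (lev B.1 n) G t) (G t) := fun t => by
    rw [ht]
    refine step_row (B.mono (Nat.lt_succ_of_le (hej _))) fun v hv => ?_
    obtain ⟨h1, ⟨y, -, h2, h3⟩, -⟩ := hf _ v hv
    exact ⟨h2.trans h3, (B.2 _).2.1 _ h1⟩
  refine ⟨B.glue n G hG, ⟨glue_all (P := Al B.1) (fun k _ => Al.refl _ k) fun t => ?_, n,
    r_eq.2 ⟨rfl, fun _ hk => glue_lt (G := G) hk⟩⟩, K', hK', ?_⟩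
  · refine ⟨e t, j (e t), hej _, (ht t).symm, rfl, fun x hx => ?_, fun x hx => ?_⟩
    · obtain ⟨v, hv, rfl⟩ := mem_row.1 hx
      exact (hf _ v hv).1
    · obtain ⟨v, hv, rfl⟩ := mem_row.1 hx
      obtain ⟨-, ⟨y, h1, -, h3⟩, -⟩ := hf _ v hv
      exact ⟨y, h1, h3⟩
  · rintro s ⟨d, m, hdm, h1, -, h3, h4⟩ y hy
    obtain rfl : d = n := (B.glue n G hG).mono.injective (h1.trans (lev_glue_le le_rfl).symm)
    obtain ⟨t, rfl⟩ := Nat.exists_eq_add_of_le hdm
    have g0 : (B.glue d G hG).1 d = G 0 := glue_add (t := 0) (A := B.1) (G := G)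
    have gt : (B.glue d G hG).1 (d + t) = G t := glue_add (A := B.1) (G := G)
    rw [g0] at h4
    rw [gt] at h3
    refine hXK (e t) y fun w => ?_
    obtain ⟨v, hv, hvy⟩ := mem_row.1 (h3 (hy w).2)
    obtain ⟨z, hz, hzy⟩ := h4 _ (hy w).2
    obtain ⟨v0, hv0, rfl⟩ := mem_row.1 hz
    obtain ⟨k1, ⟨y0, -, k2, k3⟩, k4⟩ := hf _ v0 hv0
    obtain rfl : v0 = w.1 := pre_eq (k2.trans (k3.trans hzy)) (hy w).1 (hv0.trans w.2.symm)
    have k5 := (k4 w (Or.inr rfl)).2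
    obtain ⟨-, ⟨y1, -, k6, k7⟩, k8⟩ := hf _ v hv
    rw [hvy] at k7 k8
    refine (k8 w ?_).1
    cases t with
    | zero => exact Or.inr (pre_eq (k6.trans k7) (hy w).1 (hv.trans w.2.symm))
    | succ t =>
      refine Or.inl (List.prefix_of_prefix_length_le (k5.trans hzy) (k6.trans k7) ?_)
      refine k5.length_le.trans ?_
      rw [(B.2 _).2.1 _ k1, hv]
      refine B.mono.monotone (show j (e 0) + 1 ≤ e (t + 1) from ?_)
      rw [← he]
      exact monotone_nat_of_le_succ (fun i => by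
        rw [he]; exact (hej _).trans (Nat.le_succ _)) (by omega)

theorem ds_a4 (k : ℕ) (C B : Sp) (n : ℕ) (h : DS.lef (DS.r k C) (DS.r n B)) (O : Set Ap) :
    ∃ A ∈ DS.cube (DS.r n B) B, DS.r (k + 1) '' DS.cube (DS.r k C) A ⊆ O ∨
      DS.r (k + 1) '' DS.cube (DS.r k C) A ⊆ Oᶜ := by
  obtain ⟨A, hA, K', hK', H⟩ := ds_thin B n
    {y | ∃ E : Sp, DS.r k E = DS.r k C ∧ (∀ w, y w ∈ (E.1 k).2) ∧ DS.r (k + 1) E ∈ O}
  have hl : ∀ E : Sp, DS.r k E = DS.r k C → lev E.1 k = lev B.1 n := fun E hE =>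
    (lev_congr (r_eq.1 hE).2 le_rfl).trans (lef_iff.1 h).1
  have key : ∀ E ∈ DS.cube (DS.r k C) A, ∃ y ∈ K', ∀ w, w.1 <+: y w ∧ y w ∈ (E.1 k).2 := by
    intro E hE
    obtain ⟨h1, m, hm⟩ := hE
    obtain rfl := (r_eq.1 hm).1
    choose y hy hwy using fun w : {w : W // w.length = lev B.1 n} =>
      E.up (n := m) w.1 (w.2.trans (hl E hm).symm).le
    exact ⟨y, H _ (hl E hm ▸ h1 m) y fun w => ⟨hwy w, hy w⟩, fun w => ⟨hwy w, hy w⟩⟩
  have hr : ∀ E ∈ DS.cube (DS.r k C) A, DS.r k E = DS.r k C := by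
    rintro E ⟨-, m, hm⟩
    obtain rfl := (r_eq.1 hm).1
    exact hm
  refine ⟨A, hA, hK'.imp ?_ ?_⟩
  · rintro rfl _ ⟨E, hE, rfl⟩
    obtain ⟨y, ⟨E', h1, h2, h3⟩, hy⟩ := key E hE
    have e : E.1 k = E'.1 k := (hl E (hr E hE) ▸ E.2 k).uniq (hl E' h1 ▸ E'.2 k) fun w hw =>
      ⟨y ⟨w, hw⟩, (hy ⟨w, hw⟩).1, (hy _).2, h2 _⟩
    have : DS.r (k + 1) E = DS.r (k + 1) E' := r_eq.2 ⟨rfl, fun i hi => by
      rcases (Nat.le_of_lt_succ hi).eq_or_lt with rfl | hi
      · exact e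
      · exact (r_eq.1 ((hr E hE).trans h1.symm)).2 i hi⟩
    rwa [this]
  · rintro rfl _ ⟨E, hE, rfl⟩ hO
    obtain ⟨y, hy, h2⟩ := key E hE
    exact hy ⟨E, hr E hE, fun w => (h2 w).2, hO⟩

theorem ds_trs : DS.IsTRS where
  cnt := inferInstance
  ne := sp_ne
  le_refl A := Al.refl A.1
  le_trans _ _ _ h1 h2 k := (h1 k).trans fun i _ => h2 i
  surj := Ap.ex
  a11 _ _ := rfl
  a12 A B h := by
    by_contra hc
    push Not at hc
    exact h (Subtype.ext (funext fun k => (r_eq.1 (hc (k + 1))).2 k k.lt_succ_self))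
  a13 n m A B h := ⟨(r_eq.1 h).1, fun k hk =>
    r_eq.2 ⟨rfl, fun i hi => (r_eq.1 h).2 i (hi.trans hk)⟩⟩
  lef_refl a := by
    obtain ⟨n, A, rfl⟩ := a.ex
    exact lef_iff.2 ⟨rfl, fun k _ => Al.refl _ k⟩
  lef_trans a b c h1 h2 := by
    obtain ⟨n, A, rfl⟩ := a.ex
    obtain ⟨m, B, rfl⟩ := b.ex
    obtain ⟨l, C, rfl⟩ := c.ex
    rw [lef_iff] at *
    refine ⟨h1.1.trans h2.1, fun k hk => (h1.2 k hk).trans fun i hi => h2.2 i ?_⟩
    have : lev B.1 (i + 1) ≤ lev B.1 m :=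
      hi.trans (h1.1 ▸ A.mono.monotone (show k + 1 ≤ n from hk))
    exact B.mono.le_iff_le.1 this
  a21 := ds_a21
  a22 A B := by
    refine ⟨fun h n => ?_, fun h k => ?_⟩
    · obtain ⟨m, hm⟩ := le_lev n fun k _ => h k
      exact ⟨m, lef_iff.2 ⟨hm, fun k _ => h k⟩⟩
    · obtain ⟨m, hm⟩ := h (k + 1)
      exact (lef_iff.1 hm).2 k k.lt_succ_self
  a23 := by
    rintro _ _ c ⟨A, n, m, hnm, rfl, rfl⟩ h
    obtain ⟨l, C, rfl⟩ := c.ex
    rw [lef_iff] at h
    obtain ⟨i, hi⟩ := le_lev n fun k hk => h.2 k (hk.trans_le hnm)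
    refine ⟨DS.r i C, ⟨C, i, l, C.mono.le_iff_le.1 ?_, rfl, rfl⟩,
      lef_iff.2 ⟨hi, fun k hk => h.2 k (hk.trans_le hnm)⟩⟩
    rw [← hi, ← h.1]
    exact A.mono.monotone hnm
  a31 a B n h A hA := by
    obtain ⟨k, C, rfl⟩ := a.ex
    exact cube_ne (n := n) (by rw [cube_r hA]; exact h.1)
  a32 := by
    rintro _ A B n hAB ⟨C, hC, k, rfl⟩ h
    obtain ⟨m, hm⟩ := le_lev k fun i _ => hC i
    have h1 := lef_iff.1 h.1
    have e : lev B.1 n = lev A.1 m := h1.1.symm.trans hm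
    refine ⟨B.cat n m A e, ⟨cat_le e (fun i _ => Al.refl _ i) hAB, n, cat_r e⟩,
      cube_ne (n := n) (by rw [cat_r]; exact h.1), ?_⟩
    rintro E ⟨hE, i, hi⟩
    refine ⟨fun t => ?_, i, hi⟩
    obtain ⟨rfl, h2⟩ := r_eq.1 hi
    rcases lt_or_ge t i with ht | ht
    · rw [lev_congr h2 ht.le, h2 t ht]; exact hC t
    · refine cat_al e (hE t) ?_
      rw [← h1.1, ← lev_congr h2 le_rfl]
      exact E.mono.monotone ht
  a4 k C B n h := ds_a4 k C B n h.1
  closed := ds_closed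

end Pool.Agent.MP_8067b8_lc.H6

end

-- part MP_8067b8_lc.H6.Orb
section

/-! Branches through a dense system, continuity criteria, building points of a cube. -/

set_option autoImplicit false

open Set Function Filter Topology

namespace Pool.Agent.MP_8067b8_lc.H6

def tk (z : ℕ → Bool) (l : ℕ) : W := (List.range l).map z

theorem tk_len (z : ℕ → Bool) (l : ℕ) : (tk z l).length = l := by simp [tk]

theorem tk_pre (z : ℕ → Bool) {l m : ℕ} (h : l ≤ m) : tk z l <+: tk z m := by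
  obtain ⟨t, rfl⟩ := Nat.exists_eq_add_of_le h
  rw [tk, tk, List.range_add, List.map_append]
  exact List.prefix_append _ _

theorem tk_eq {z z' : ℕ → Bool} {l : ℕ} : tk z l = tk z' l ↔ ∀ i < l, z i = z' i := by
  simp only [tk, List.map_inj_left, List.mem_range]

theorem tk_le {z z' : ℕ → Bool} {l m : ℕ} (h : tk z m = tk z' m) (hl : l ≤ m) :
    tk z l = tk z' l := tk_eq.2 fun i hi => tk_eq.1 h i (hi.trans_le hl)

theorem pre_tk {z : ℕ → Bool} {v : W} {m : ℕ} (h : v <+: tk z m) : tk z v.length = v :=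
  pre_eq (tk_pre z (h.length_le.trans (tk_len z m).le)) h (tk_len _ _)

theorem getD_pre {u v : W} (h : u <+: v) {i : ℕ} (hi : i < u.length) :
    v.getD i false = u.getD i false := by
  obtain ⟨t, rfl⟩ := h
  exact List.getD_append _ _ _ _ hi

theorem tk_getD (w : W) : tk (fun i => w.getD i false) w.length = w :=
  List.ext_getElem (tk_len _ _) fun i _ h => by simp [tk, h]

def lim (s : ℕ → W) (i : ℕ) : Bool := (s (i + 1)).getD i false

theorem lim_spec {s : ℕ → W} (hm : ∀ t, s t <+: s (t + 1)) (hl : ∀ t, t ≤ (s t).length) (t : ℕ) :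
    tk (lim s) (s t).length = s t := by
  have mono : ∀ a b, a ≤ b → s a <+: s b := fun a b h => by
    induction h with
    | refl => exact List.prefix_rfl
    | step _ ih => exact ih.trans (hm _)
  refine Eq.trans (tk_eq.2 fun i hi => ?_) (tk_getD _)
  rw [lim, ← getD_pre (mono _ _ (le_max_left t (i + 1))) hi,
    getD_pre (mono _ _ (le_max_right t (i + 1))) (hl (i + 1))]

theorem ev_tk (z : ℕ → Bool) (l : ℕ) : ∀ᶠ z' in 𝓝 z, tk z' l = tk z l := by
  simp only [tk_eq]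
  refine (eventually_all_finite (finite_lt_nat l)).2 fun i _ => ?_
  exact (continuous_apply i).continuousAt.eventually
    ((isOpen_discrete {z i}).mem_nhds (mem_singleton _))

/-- the branch follows row `n` -/
def Fo (A : ℕ → St) (n : ℕ) (z : ℕ → Bool) : Prop := tk z (lev A (n + 1)) ∈ (A n).2

open Classical in
noncomputable def nxr (s : St) (v : W) : W := if h : ∃ x ∈ s.2, v <+: x then h.choose else v

noncomputable def sq (B : ℕ → St) (k : ℕ) (w : W) : ℕ → W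
  | 0 => w
  | t + 1 => nxr (B (k + t)) (sq B k w t)

noncomputable def orb (B : ℕ → St) (k : ℕ) (w : W) : ℕ → Bool := lim (sq B k w)

theorem nxr_spec (B : Sp) {n : ℕ} {v : W} (h : v.length = lev B.1 n) :
    nxr (B.1 n) v ∈ (B.1 n).2 ∧ v <+: nxr (B.1 n) v := by
  have := B.up v h.le
  rw [nxr, dif_pos this]
  exact this.choose_spec

theorem sq_len (B : Sp) {k : ℕ} {w : W} (h : w.length = lev B.1 k) :
    ∀ t, (sq B.1 k w t).length = lev B.1 (k + t)
  | 0 => h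
  | t + 1 => (B.2 _).2.1 _ (nxr_spec B (sq_len B h t)).1

theorem orb_spec (B : Sp) {k : ℕ} {w : W} (h : w.length = lev B.1 k) :
    tk (orb B.1 k w) (lev B.1 k) = w ∧ ∀ n, k ≤ n → Fo B.1 n (orb B.1 k w) := by
  have key := lim_spec (s := sq B.1 k w) (fun t => (nxr_spec B (sq_len B h t)).2) fun t => by
    rw [sq_len B h]; exact (Nat.le_add_left _ _).trans B.mono.le_apply
  refine ⟨by simpa [sq, h, orb] using key 0, fun n hn => ?_⟩
  obtain ⟨t, rfl⟩ := Nat.exists_eq_add_of_le hn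
  have := key (t + 1)
  rw [sq_len B h] at this
  rw [Fo, orb, add_assoc, this]
  exact (nxr_spec B (sq_len B h t)).1

theorem fo_step (B : Sp) {n : ℕ} {z z' : ℕ → Bool} (h : tk z (lev B.1 n) = tk z' (lev B.1 n))
    (h1 : Fo B.1 n z) (h2 : Fo B.1 n z') : tk z (lev B.1 (n + 1)) = tk z' (lev B.1 (n + 1)) :=
  ((B.2 n).2.2 _ (tk_len z _)).unique ⟨h1, tk_pre _ (B.2 n).1.le⟩ ⟨h2, h ▸ tk_pre _ (B.2 n).1.le⟩

theorem fo_uniq (B : Sp) {k : ℕ} {z z' : ℕ → Bool} (h : tk z (lev B.1 k) = tk z' (lev B.1 k))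
    (h1 : ∀ n, k ≤ n → Fo B.1 n z) (h2 : ∀ n, k ≤ n → Fo B.1 n z') : z = z' := by
  have key : ∀ n, k ≤ n → tk z (lev B.1 n) = tk z' (lev B.1 n) := fun n hn => by
    induction hn with
    | refl => exact h
    | step hn ih => exact fo_step B ih (h1 _ hn) (h2 _ hn)
  funext i
  exact tk_eq.1 (key (k + i + 1) (by omega)) i
    (lt_of_lt_of_le (by omega) (B.mono.le_apply (x := k + i + 1)))

theorem sq_congr {B B' : ℕ → St} {k : ℕ} {w : W} :
    ∀ t, (∀ i < k + t, B i = B' i) → sq B k w t = sq B' k w t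
  | 0, _ => rfl
  | t + 1, h => by
    rw [sq, sq, h _ (by omega), sq_congr t fun i hi => h i (by omega)]

theorem cont_from {g : Sp → Bool} {m : ℕ}
    (h : ∀ B B' : Sp, (∀ k < m, B.1 k = B'.1 k) → g B = g B') : Continuous[DS.pol, _] g := by
  let : TopologicalSpace Ap := ⊥
  have : DiscreteTopology Ap := ⟨rfl⟩
  let := DS.pol
  have hc : Continuous (DS.r m) := (continuous_apply (A := fun _ => Ap) m).comp
    (continuous_induced_dom (f := fun A n => DS.r n A))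
  refine continuous_def.2 fun S _ => ?_
  have : g ⁻¹' S = DS.r m ⁻¹' (DS.r m '' (g ⁻¹' S)) := by
    refine (subset_preimage_image _ _).antisymm ?_
    rintro B ⟨B', h1, h2⟩
    rwa [mem_preimage, ← h B' B (r_eq.1 h2).2]
  rw [this]
  exact (isOpen_discrete _).preimage hc

theorem cont_to {Z : Type} [TopologicalSpace Z] {ψ : Z → Sp}
    (h : ∀ n z, ∀ᶠ z' in 𝓝 z, (ψ z').1 n = (ψ z).1 n) : Continuous[_, DS.pol] ψ := by
  let : TopologicalSpace Ap := ⊥
  have : DiscreteTopology Ap := ⟨rfl⟩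
  refine continuous_induced_rng.2 (continuous_pi fun n => continuous_iff_continuousAt.2 fun z => ?_)
  refine tendsto_const_nhds.congr' ?_
  filter_upwards [(eventually_all_finite (finite_lt_nat n)).2 fun i _ => h i z] with z' hz
  exact r_eq.2 ⟨rfl, fun i hi => (hz i hi).symm⟩

theorem orb_cont (k : ℕ) (w : W) : Continuous[DS.pol, _] fun B : Sp => orb B.1 k w := by
  let := DS.pol
  exact continuous_pi fun i => cont_from (m := k + (i + 1)) fun B B' h => by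
    simp only [orb, lim, sq_congr _ h]

/-! building points of a cube -/

def ee (n : ℕ) (j : ℕ → ℕ) : ℕ → ℕ
  | 0 => n
  | t + 1 => j t + 1

noncomputable def rows (A : ℕ → St) (n : ℕ) (j : ℕ → ℕ) (f : ℕ → W → W) (t : ℕ) : St :=
  mkRow (lev A (ee n j t)) (lev A (j t + 1)) (f t)

def Ok (A : ℕ → St) (n : ℕ) (j : ℕ → ℕ) (f : ℕ → W → W) : Prop :=
  ∀ t, ee n j t ≤ j t ∧ ∀ v : W, v.length = lev A (ee n j t) →
    f t v ∈ (A (j t)).2 ∧ ∃ y ∈ (A (ee n j t)).2, v <+: y ∧ y <+: f t v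

theorem tl_rows {A : ℕ → St} {n l : ℕ} {j : ℕ → ℕ} {f : ℕ → W → W} (h : l = lev A n) :
    ∀ t, tl l (rows A n j f) t = lev A (ee n j t)
  | 0 => h
  | _ + 1 => rfl

noncomputable def bld (C : Sp) (k : ℕ) (A : Sp) {n : ℕ} {j : ℕ → ℕ} {f : ℕ → W → W}
    (h : lev C.1 k = lev A.1 n) (hf : Ok A.1 n j f) : Sp :=
  C.glue k (rows A.1 n j f) fun t => by
    rw [tl_rows h]
    refine step_row (A.mono (Nat.lt_succ_of_le (hf t).1)) fun v hv => ?_
    obtain ⟨h1, y, -, h2, h3⟩ := (hf t).2 v hv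
    exact ⟨h2.trans h3, (A.2 _).2.1 _ h1⟩

theorem bld_mem {C : Sp} {k : ℕ} {A : Sp} {n : ℕ} {j : ℕ → ℕ} {f : ℕ → W → W}
    (h : lev C.1 k = lev A.1 n) (hf : Ok A.1 n j f) (hC : DS.le C A) :
    bld C k A h hf ∈ DS.cube (DS.r k C) A := by
  refine ⟨glue_all (P := Al A.1) (fun i _ => hC i) fun t => ?_, k,
    r_eq.2 ⟨rfl, fun _ hk => glue_lt (G := rows A.1 n j f) hk⟩⟩
  refine ⟨ee n j t, j t, (hf t).1, (tl_rows h t).symm, rfl, fun x hx => ?_, fun x hx => ?_⟩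
  · obtain ⟨v, hv, rfl⟩ := mem_row.1 hx
    exact ((hf t).2 v hv).1
  · obtain ⟨v, hv, rfl⟩ := mem_row.1 hx
    obtain ⟨-, y, h1, -, h3⟩ := (hf t).2 v hv
    exact ⟨y, h1, h3⟩

theorem bld_fo {C : Sp} {k : ℕ} {A : Sp} {n : ℕ} {j : ℕ → ℕ} {f : ℕ → W → W}
    (h : lev C.1 k = lev A.1 n) (hf : Ok A.1 n j f) (t : ℕ) (z : ℕ → Bool) :
    Fo (bld C k A h hf).1 (k + t) z ↔
      f t (tk z (lev A.1 (ee n j t))) = tk z (lev A.1 (j t + 1)) := by
  have e1 : (bld C k A h hf).1 (k + t) = rows A.1 n j f t := glue_add (A := C.1)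
  have e2 : lev (bld C k A h hf).1 (k + t + 1) = lev A.1 (j t + 1) :=
    (congrArg Prod.fst e1).trans rfl
  rw [Fo, e1, e2, rows, mem_row]
  refine ⟨?_, fun e => ⟨_, tk_len _ _, e⟩⟩
  rintro ⟨v, hv, e⟩
  obtain ⟨-, y, -, h2, h3⟩ := (hf t).2 v hv
  rw [← hv, pre_tk (e ▸ h2.trans h3), e]

end Pool.Agent.MP_8067b8_lc.H6

end

-- part MP_8067b8_lc.H6.Ell
section

/-! The abstract Ellentuck theorem in the form needed here: cubes are Borel and not in the ideal,
and a Borel set outside the ideal contains a nonempty cube. -/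

set_option autoImplicit false

open Set Filter Topology MeasureTheory

namespace Pool.Agent.MP_8067b8_lc.H6

namespace Pre.IsTRS

variable {R AR : Type} {T : Pre R AR} (h : T.IsTRS)
include h

theorem el_agree {n m : ℕ} {A B : R} (e : T.r n A = T.r m B) :
    n = m ∧ ∀ k ≤ n, T.r k A = T.r k B := by
  obtain ⟨rfl, hk⟩ := h.a13 n m A B e
  refine ⟨rfl, fun k hk' => ?_⟩
  rcases hk'.lt_or_eq with h1 | rfl
  · exact hk k h1
  · exact e

theorem el_mem {n : ℕ} {A B : R} :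
    B ∈ T.cube (T.r n A) A ↔ T.le B A ∧ ∀ k ≤ n, T.r k B = T.r k A := by
  constructor
  · rintro ⟨h1, m, hm⟩
    obtain ⟨rfl, hk⟩ := h.el_agree hm
    exact ⟨h1, hk⟩
  · rintro ⟨h1, hk⟩
    exact ⟨h1, n, hk n le_rfl⟩

theorem el_self (n : ℕ) (A : R) : A ∈ T.cube (T.r n A) A := ⟨h.le_refl A, n, rfl⟩

theorem el_mono {a : AR} {A B : R} (hBA : T.le B A) : T.cube a B ⊆ T.cube a A :=
  fun _ hC => ⟨h.le_trans _ _ _ hC.1 hBA, hC.2⟩

theorem el_trans {n m : ℕ} {A B C : R} (hnm : n ≤ m) (hB : B ∈ T.cube (T.r n A) A)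
    (hC : C ∈ T.cube (T.r m B) B) : C ∈ T.cube (T.r n A) A := by
  rw [h.el_mem] at hB hC ⊢
  exact ⟨h.le_trans _ _ _ hC.1 hB.1, fun k hk => (hC.2 k (hk.trans hnm)).trans (hB.2 k hk)⟩

theorem el_depth_iff {n : ℕ} {A B : R} {a : AR} (hB : B ∈ T.cube (T.r n A) A) :
    T.Depth B a n ↔ T.Depth A a n := by
  have hk := (h.el_mem.1 hB).2
  have key : ∀ {X Y : R}, (∀ k ≤ n, T.r k X = T.r k Y) → T.Depth X a n → T.Depth Y a n := by
    intro X Y e hd
    refine ⟨?_, fun m hm => ?_⟩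
    · have := hd.1
      simp only [mem_ofPred_eq] at this ⊢
      rwa [← e n le_rfl]
    · by_contra hlt
      have hlt' : m < n := not_le.1 hlt
      have : T.lef a (T.r m X) := by
        rw [e m hlt'.le]; exact hm
      exact hlt (hd.2 this)
  exact ⟨key hk, key fun k hk' => (hk k hk').symm⟩

theorem el_depth_ex {E C : R} (hE : T.le E C) (j : ℕ) : ∃ d, T.Depth C (T.r j E) d := by
  classical
  have hex := (h.a22 E C).1 hE j
  exact ⟨Nat.find hex, Nat.find_spec hex, fun m hm => Nat.find_min' hex hm⟩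

theorem el_depth_ge {E C : R} {n k j : ℕ} (hE : T.le E C) (hd : T.Depth C (T.r k E) n)
    (hkj : k ≤ j) : ∃ d, n ≤ d ∧ T.Depth C (T.r j E) d := by
  obtain ⟨d, hd'⟩ := h.el_depth_ex hE j
  refine ⟨d, ?_, hd'⟩
  obtain ⟨c, ⟨A', i, m, him, rfl, hm⟩, hc⟩ :=
    h.a23 (T.r k E) (T.r j E) (T.r d C) ⟨E, k, j, hkj, rfl, rfl⟩ hd'.1
  obtain ⟨rfl, hk⟩ := h.el_agree hm
  rw [hk i him] at hc
  exact (hd.2 hc).trans him

theorem el_depth_big {E C : R} (hE : T.le E C) (n : ℕ) :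
    ∃ j d, n ≤ d ∧ T.Depth C (T.r j E) d := by
  have hfin : (⋃ m ∈ Iio n, {b | T.lef b (T.r m C)}).Finite :=
    (finite_Iio n).biUnion fun m _ => h.a21 _
  have hinj : Function.Injective fun j => T.r j E := fun i j e => (h.a13 i j E E e).1
  obtain ⟨_, ⟨j, rfl⟩, hj⟩ := (infinite_range_of_injective hinj).exists_notMem_finite hfin
  obtain ⟨d, hd⟩ := h.el_depth_ex hE j
  refine ⟨j, d, ?_, hd⟩
  by_contra hlt
  exact hj (mem_biUnion (show d ∈ Iio n from not_le.1 hlt) hd.1)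

/-- fusion -/
theorem el_fusion (n : ℕ) (B : ℕ → R) (hB : ∀ i, B (i + 1) ∈ T.cube (T.r (n + i) (B i)) (B i)) :
    ∃ C, ∀ i, C ∈ T.cube (T.r (n + i) (B i)) (B i) := by
  have h1 : ∀ i j, i ≤ j → B j ∈ T.cube (T.r (n + i) (B i)) (B i) := by
    intro i j hij
    induction j, hij using Nat.le_induction with
    | base => exact h.el_self _ _
    | succ j hij ih => exact h.el_trans (by omega) ih (hB j)
  have h2 : ∀ i m, m ≤ n + i → T.r m (B m) = T.r m (B i) := by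
    intro i m hm
    rcases le_total i m with him | him
    · exact (h.el_mem.1 (h1 i m him)).2 m hm
    · exact ((h.el_mem.1 (h1 m i him)).2 m (by omega)).symm
  have h3 : (fun m => T.r m (B m)) ∈ range fun A n => T.r n A := by
    let _ : TopologicalSpace AR := ⊥
    have hc : IsClosed (range fun A n => T.r n A) := h.closed
    refine hc.mem_of_tendsto (b := atTop) (f := fun i m => T.r m (B i)) ?_
      (Eventually.of_forall fun i => ⟨B i, rfl⟩)
    rw [tendsto_pi_nhds]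
    intro m
    refine tendsto_const_nhds.congr' ?_
    filter_upwards [eventually_ge_atTop m] with i hi
    exact h2 i m (by omega)
  obtain ⟨C, hC⟩ := h3
  have hC' : ∀ m, T.r m C = T.r m (B m) := fun m => congrFun hC m
  refine ⟨C, fun i => h.el_mem.2 ⟨?_, fun k hk => (hC' k).trans (h2 i k hk)⟩⟩
  rw [h.a22]
  intro m
  rw [hC', h2 (max i m) m (by omega)]
  exact (h.a22 _ _).1 (h1 i _ (le_max_left _ _)).1 m

/-- one thins out `A` above level `n` so that a hereditary dense property holds everywhere -/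
theorem el_fuse (n : ℕ) (A : R) (Q : ℕ → AR → R → Prop)
    (hher : ∀ d b B B', Q d b B → T.le B' B → Q d b B')
    (hden : ∀ B b d, T.le B A → T.Depth B b d → ∃ B' ∈ T.cube (T.r d B) B, Q d b B') :
    ∃ C ∈ T.cube (T.r n A) A, ∀ b d, n ≤ d → T.Depth C b d → Q d b C := by
  have step : ∀ d B, ∃ B', T.le B A → B' ∈ T.cube (T.r d B) B ∧
      ∀ b, T.Depth B b d → Q d b B' := by
    intro d B
    by_cases hBA : T.le B A
    swap
    · exact ⟨B, fun h' => absurd h' hBA⟩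
    have : ∀ s : Set AR, s.Finite → ∃ B' ∈ T.cube (T.r d B) B,
        ∀ b ∈ s, T.Depth B b d → Q d b B' := by
      intro s hs
      induction s, hs using Set.Finite.induction_on with
      | empty => exact ⟨B, h.el_self _ _, fun b hb => absurd hb (notMem_empty b)⟩
      | @insert c s _ _ ih =>
        obtain ⟨B', hB', hq⟩ := ih
        by_cases hc : T.Depth B c d
        · obtain ⟨B'', hB'', hq'⟩ := hden B' c d (h.le_trans _ _ _ hB'.1 hBA)
            ((h.el_depth_iff hB').2 hc)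
          refine ⟨B'', h.el_trans le_rfl hB' hB'', ?_⟩
          rintro b (rfl | hb) hd
          · exact hq'
          · exact hher _ _ _ _ (hq b hb hd) hB''.1
        · refine ⟨B', hB', ?_⟩
          rintro b (rfl | hb) hd
          · exact absurd hd hc
          · exact hq b hb hd
    obtain ⟨B', hB', hq⟩ := this _ (h.a21 (T.r d B))
    exact ⟨B', fun _ => ⟨hB', fun b hb => hq b hb.1 hb⟩⟩
  choose f hf using step
  let B : ℕ → R := fun i => Nat.rec A (fun i X => f (n + i) X) i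
  have hBs : ∀ i, B (i + 1) = f (n + i) (B i) := fun i => rfl
  have hBA : ∀ i, T.le (B i) A := by
    intro i
    induction i with
    | zero => exact h.le_refl A
    | succ i ih => exact h.le_trans _ _ _ (hf _ _ ih).1.1 ih
  obtain ⟨C, hC⟩ := h.el_fusion n B fun i => (hf _ _ (hBA i)).1
  refine ⟨C, hC 0, fun b d hd hb => ?_⟩
  obtain ⟨i, rfl⟩ := Nat.exists_eq_add_of_le hd
  exact hher _ _ _ _ ((hf _ _ (hBA i)).2 b ((h.el_depth_iff (hC i)).1 hb)) (hC (i + 1)).1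

omit h in
theorem el_open_cube (a : AR) (A : R) : IsOpen[T.ell] (T.cube a A) :=
  TopologicalSpace.GenerateOpen.basic _ ⟨a, A, rfl⟩

theorem el_nhds {U : Set R} (hU : IsOpen[T.ell] U) :
    ∀ E ∈ U, ∃ k, ∀ j ≥ k, T.cube (T.r j E) E ⊆ U := by
  have hU' : TopologicalSpace.GenerateOpen {U | ∃ a A, U = T.cube a A} U := hU
  clear hU
  induction hU' with
  | basic s hs =>
    obtain ⟨a, A, rfl⟩ := hs
    rintro E ⟨hE, k, rfl⟩
    refine ⟨k, fun j hj D hD => ?_⟩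
    rw [h.el_mem] at hD
    exact ⟨h.le_trans _ _ _ hD.1 hE, k, hD.2 k hj⟩
  | univ => exact fun E _ => ⟨0, fun _ _ => subset_univ _⟩
  | inter s t _ _ ihs iht =>
    intro E hE
    obtain ⟨k, hk⟩ := ihs E hE.1
    obtain ⟨l, hl⟩ := iht E hE.2
    exact ⟨max k l, fun j hj => subset_inter (hk j (le_of_max_le_left hj))
      (hl j (le_of_max_le_right hj))⟩
  | sUnion S _ ih =>
    rintro E ⟨s, hs, hE⟩
    obtain ⟨k, hk⟩ := ih s hs E hE
    exact ⟨k, fun j hj => (hk j hj).trans (subset_sUnion_of_mem hs)⟩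

/-- a dense open set is accepted -/
theorem el_dense {U : Set R} (hU : IsOpen[T.ell] U) (hD : @Dense R T.ell U) {A : R} {a : AR}
    {n : ℕ} (hd : T.Depth A a n) : ∃ A' ∈ T.cube (T.r n A) A, T.cube a A' ⊆ U := by
  let Rej : AR → R → Prop := fun b X => ∀ Y, T.le Y X → (T.cube b Y).Nonempty → ¬T.cube b Y ⊆ U
  have hrej : ∀ b X X', Rej b X → T.le X' X → Rej b X' :=
    fun b X X' hr hX Y hY => hr Y (h.le_trans _ _ _ hY hX)
  have hdec : ∀ X b d, T.Depth X b d → ¬Rej b X →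
      ∃ X' ∈ T.cube (T.r d X) X, T.cube b X' ⊆ U := by
    intro X b d hb hr
    simp only [Rej, not_forall, not_not] at hr
    obtain ⟨Y, hY, hne, hYU⟩ := hr
    obtain ⟨X', hX', -, hs⟩ := h.a32 b Y X d hY hne hb
    exact ⟨X', hX', hs.trans hYU⟩
  refine hdec A a n hd fun hr => ?_
  obtain ⟨C, hC, hCd⟩ := h.el_fuse n A (fun _ b X => Rej b X ∨ T.cube b X ⊆ U)
    (fun _ b X X' hq hX => hq.imp (fun h' => hrej _ _ _ h' hX) fun h' => (h.el_mono hX).trans h')
    (fun X b d _ hb => by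
      by_cases hr' : Rej b X
      · exact ⟨X, h.el_self _ _, Or.inl hr'⟩
      · obtain ⟨X', hX', hs⟩ := hdec X b d hb hr'
        exact ⟨X', hX', Or.inr hs⟩)
  have hdC : T.Depth C a n := (h.el_depth_iff hC).2 hd
  obtain ⟨D, hDC, hDd⟩ := h.el_fuse n C
    (fun _ b X => Rej b C → ∀ E, T.le E X → ∀ k j, T.r k E = a → k ≤ j → T.r j E = b →
      Rej (T.r (j + 1) E) C)
    (fun _ b X X' hq hX hb E hE => hq hb E (h.le_trans _ _ _ hE hX))
    (fun X b d hX hb => by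
      obtain ⟨j0, C0, rfl⟩ := h.surj b
      obtain ⟨X', hX', hO⟩ := h.a4 j0 C0 X d hb {c | Rej c C}
      refine ⟨X', hX', fun hrb E hE k j hk hkj hj => ?_⟩
      obtain rfl : j = j0 := (h.a13 _ _ _ _ hj).1
      rcases hO with hO | hO
      · exact hO ⟨E, ⟨hE, j, hj⟩, rfl⟩
      · exfalso
        have hXC : T.le X' C := h.le_trans _ _ _ hX'.1 hX
        refine hrb X' hXC ⟨E, hE, j, hj⟩ fun E' hE' => ?_
        have hE'C : T.le E' C := h.le_trans _ _ _ hE'.1 hXC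
        obtain ⟨j', hj'⟩ := hE'.2
        obtain ⟨rfl, hag⟩ := h.el_agree (hj'.trans hj.symm)
        have hk' : T.r k E' = a := (hag k hkj).trans hk
        obtain ⟨d', hd', hdd⟩ := h.el_depth_ge (j := j' + 1) hE'C (hk' ▸ hdC) (by omega)
        rcases hCd _ _ hd' hdd with h1 | h1
        · exact absurd h1 (hO ⟨E', hE', rfl⟩)
        · exact h1 ⟨hE'C, j' + 1, rfl⟩)
  have hdD : T.Depth D a n := (h.el_depth_iff hDC).2 hdC
  obtain ⟨E, hE, hEU⟩ := @Dense.inter_open_nonempty R T.ell U hD _ (el_open_cube a D)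
    (h.a31 a C n hdC D hDC)
  obtain ⟨hED, k, hk⟩ := hE
  have hall : ∀ j, k ≤ j → Rej (T.r j E) C := by
    intro j hj
    induction j, hj using Nat.le_induction with
    | base => rw [hk]; exact hrej _ _ _ hr hC.1
    | succ j hj ih =>
      obtain ⟨d, hd1, hd2⟩ := h.el_depth_ge hED (hk ▸ hdD) hj
      exact hDd _ _ hd1 hd2 ih E hED k j hk hj rfl
  obtain ⟨l, hl⟩ := h.el_nhds hU E hEU
  exact hall (max k l) (le_max_left _ _) E (h.le_trans _ _ _ hED hDC.1) ⟨E, h.el_self _ _⟩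
    (hl _ (le_max_right _ _))

/-- meager sets are Ramsey null -/
theorem el_residual {s : Set R} (hs : s ∈ @residual R T.ell) (n : ℕ) (A : R) :
    ∃ C ∈ T.cube (T.r n A) A, ∀ E, T.le E C → E ∈ s := by
  let _ := T.ell
  obtain ⟨S, hSo, hSd, hSc, hS⟩ := mem_residual_iff.1 hs
  obtain ⟨f, hf⟩ := (hSc.insert univ).exists_eq_range (insert_nonempty _ _)
  have hfi : ∀ i, IsOpen (f i) ∧ Dense (f i) := by
    intro i
    have : f i ∈ insert univ S := hf ▸ mem_range_self i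
    rcases this with e | e
    · rw [e]; exact ⟨isOpen_univ, dense_univ⟩
    · exact ⟨hSo _ e, hSd _ e⟩
  have hV : ∀ d, ∃ V, IsOpen V ∧ Dense V ∧ ∀ i < d, V ⊆ f i := by
    intro d
    induction d with
    | zero => exact ⟨univ, isOpen_univ, dense_univ, fun i hi => absurd hi (Nat.not_lt_zero i)⟩
    | succ d ih =>
      obtain ⟨V, h1, h2, h3⟩ := ih
      refine ⟨V ∩ f d, h1.inter (hfi d).1, h2.inter_of_isOpen_left (hfi d).2 h1, fun i hi => ?_⟩
      rcases (Nat.lt_succ_iff.1 hi).lt_or_eq with h4 | rfl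
      · exact inter_subset_left.trans (h3 i h4)
      · exact inter_subset_right
  obtain ⟨C, hC, hCd⟩ := h.el_fuse n A (fun d b X => ∀ i < d, T.cube b X ⊆ f i)
    (fun _ b X X' hq hX i hi => (h.el_mono hX).trans (hq i hi))
    (fun X b d _ hb => by
      obtain ⟨V, h1, h2, h3⟩ := hV d
      obtain ⟨X', hX', hs'⟩ := h.el_dense h1 h2 hb
      exact ⟨X', hX', fun i hi => hs'.trans (h3 i hi)⟩)
  refine ⟨C, hC, fun E hE => hS fun t ht => ?_⟩
  obtain ⟨i, rfl⟩ : t ∈ range f := hf ▸ mem_insert_of_mem _ ht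
  obtain ⟨j, d, hd, hdd⟩ := h.el_depth_big hE (max n (i + 1))
  exact hCd _ d (le_of_max_le_left hd) hdd i (le_of_max_le_right hd) ⟨hE, j, rfl⟩

omit h in
theorem el_open_pol (n : ℕ) (P : Set AR) : IsOpen[T.pol] {B | T.r n B ∈ P} := by
  let _ : TopologicalSpace AR := ⊥
  have : DiscreteTopology AR := ⟨rfl⟩
  exact ⟨(fun x : ℕ → AR => x n) ⁻¹' P,
    (isOpen_discrete P).preimage (continuous_apply n), rfl⟩

theorem el_le : T.ell ≤ T.pol := by
  let _ : TopologicalSpace AR := ⊥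
  let _ := T.ell
  have hc : Continuous fun (A : R) (n : ℕ) => T.r n A := by
    refine continuous_pi fun n => ⟨fun P _ => isOpen_iff_forall_mem_open.2 fun E hE => ?_⟩
    refine ⟨T.cube (T.r n E) E, fun D hD => ?_, el_open_cube _ _, h.el_self _ _⟩
    have := (h.el_mem.1 hD).2 n le_rfl
    simp only [mem_preimage] at hE ⊢
    rwa [this]
  exact continuous_iff_le_induced.1 hc

theorem cube_meas (a : AR) (A : R) : MeasurableSet[T.bor] (T.cube a A) := by
  let _ := T.pol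
  let _ := T.bor
  have : BorelSpace R := ⟨rfl⟩
  have e : T.cube a A = (⋂ n, {B | T.r n B ∈ {b | ∃ m, T.lef b (T.r m A)}}) ∩
      ⋃ n, {B | T.r n B ∈ ({a} : Set AR)} := by
    ext B
    simp only [cube, mem_ofPred_eq, mem_inter_iff, mem_iInter, mem_iUnion, mem_singleton_iff,
      h.a22]
  rw [e]
  exact (MeasurableSet.iInter fun n => (el_open_pol n _).measurableSet).inter
    (MeasurableSet.iUnion fun n => (el_open_pol n _).measurableSet)

theorem cube_not_idl {a : AR} {A : R} (hne : (T.cube a A).Nonempty) : T.cube a A ∉ T.idl := by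
  intro hI
  obtain ⟨E, hE, k, rfl⟩ := hne
  obtain ⟨n, hn⟩ := h.el_depth_ex hE k
  obtain ⟨C, hC, hs⟩ := h.el_residual (s := (T.cube (T.r k E) A)ᶜ) hI n A
  obtain ⟨D, hD⟩ := h.a31 _ A n hn C hC
  exact hs D hD.1 (h.el_mono hC.1 hD)

theorem exists_cube {B : Set R} (hB : MeasurableSet[T.bor] B) (hI : B ∉ T.idl) :
    ∃ a A, (T.cube a A).Nonempty ∧ T.cube a A ⊆ B := by
  have hB' : MeasurableSet[@borel R T.ell] B := borel_anti h.el_le B hB
  let _ := T.ell
  let _ : MeasurableSpace R := borel R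
  have : BorelSpace R := ⟨rfl⟩
  obtain ⟨U, hU, hBU⟩ := hB'.baireMeasurableSet.residualEq_isOpen
  have hne : U.Nonempty := by
    by_contra hU'
    rw [not_nonempty_iff_eq_empty] at hU'
    subst hU'
    refine hI ?_
    show Bᶜ ∈ residual R
    filter_upwards [hBU] with x hx
    exact fun hx' => (hx.to_iff.1 hx' : x ∈ (∅ : Set R))
  obtain ⟨E, hE⟩ := hne
  obtain ⟨k, hk⟩ := h.el_nhds hU E hE
  obtain ⟨C, hC, hs⟩ := h.el_residual hBU k E
  have hkC := (h.el_mem.1 hC).2 k le_rfl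
  refine ⟨T.r k E, C, ⟨C, h.le_refl C, k, hkC⟩, fun D hD => ?_⟩
  exact (hs D hD.1).to_iff.2 (hk k le_rfl (h.el_mono hC.1 hD))

end Pre.IsTRS

end Pool.Agent.MP_8067b8_lc.H6

end

-- part MP_8067b8_lc.H6.Cohen
section

/-! The spine of a dense system is a Cohen real: continuous sections over non-meager sets. -/

set_option autoImplicit false

open Set Function Filter Topology

namespace Pool.Agent.MP_8067b8_lc.H6

theorem Red.trans {X Y Z : Type} [MeasurableSpace X] [MeasurableSpace Y] [MeasurableSpace Z]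
    {E : X → X → Prop} {F : Y → Y → Prop} {G : Z → Z → Prop} (h : Red E F) (h' : Red F G) :
    Red E G :=
  let ⟨f, hf, h1⟩ := h
  let ⟨g, hg, h2⟩ := h'
  ⟨g ∘ f, hg.comp hf, fun x x' => (h1 x x').trans (h2 _ _)⟩

theorem Red.res {X : Type} [MeasurableSpace X] (E : X → X → Prop) (C : Set X) :
    Red (res E C) E := ⟨Subtype.val, measurable_subtype_coe, fun _ _ => Iff.rfl⟩

theorem Pre.IsTRS.polish {R AR : Type} {T : Pre R AR} (h : T.IsTRS) : @PolishSpace R T.pol := by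
  let : TopologicalSpace AR := ⊥
  have : DiscreteTopology AR := ⟨rfl⟩
  have := h.cnt
  let := T.pol
  have h3 : SecondCountableTopology AR := inferInstance
  have hc : IsClosedEmbedding (fun A n => T.r n A : R → ℕ → AR) := by
    refine ⟨⟨⟨rfl⟩, fun A B e => ?_⟩, h.closed⟩
    by_contra hne
    obtain ⟨n, hn⟩ := h.a12 A B hne
    exact hn (congrFun e n)
  exact hc.polishSpace

theorem Pre.IsTRS.spec {R AR : Type} {T : Pre R AR} (h : T.IsTRS) {E : R → R → Prop}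
    (H : ∀ a A, (T.cube a A).Nonempty → @Red _ _ T.bor (@Subtype.instMeasurableSpace _ _ T.bor)
      E (res E (T.cube a A))) : @InSpec R T.bor T.idl E := by
  intro B hB hI
  obtain ⟨a, A, hne, hs⟩ := h.exists_cube hB hI
  exact ⟨_, h.cube_meas a A, hs, h.cube_not_idl hne, @Red.res _ T.bor _ _, H a A hne⟩

theorem ev_fo (A : ℕ → St) (z : ℕ → Bool) (n : ℕ) : ∀ᶠ z' in 𝓝 z, (Fo A n z' ↔ Fo A n z) := by
  filter_upwards [ev_tk z (lev A (n + 1))] with z' h
  rw [Fo, h, Fo]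

def Tw (A : ℕ → St) (N : ℕ) (z : ℕ → Bool) : Set ℕ := {j | N ≤ j ∧ Fo A j z ∧ Fo A (j + 1) z}

theorem tw_open (A : ℕ → St) (N : ℕ) : IsOpen {z | (Tw A N z).Nonempty} := by
  refine isOpen_iff_mem_nhds.2 fun z ⟨j, h1, h2, h3⟩ => ?_
  filter_upwards [ev_fo A z j, ev_fo A z (j + 1)] with z' k1 k2
  exact ⟨j, h1, k1.2 h2, k2.2 h3⟩

theorem tw_dense (A : Sp) (N : ℕ) : Dense {z | (Tw A.1 N z).Nonempty} := by
  intro z
  have : ∀ L, ∃ z', tk z' L = tk z L ∧ (Tw A.1 N z').Nonempty := by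
    intro L
    obtain ⟨x, hx, h1⟩ := A.up (n := max N L) (tk z L)
      ((tk_len _ _).le.trans ((le_max_right N L).trans A.mono.le_apply))
    have hl := (A.2 _).2.1 x hx
    obtain ⟨y, hy, h2⟩ := A.up (n := max N L + 1) x hl.le
    obtain ⟨g, k⟩ : ∃ g, tk g y.length = y := ⟨_, tk_getD y⟩
    refine ⟨g, ?_, max N L, le_max_left _ _, ?_, ?_⟩
    · have := pre_tk (k ▸ h1.trans h2)
      rwa [tk_len] at this
    · have := pre_tk (k ▸ h2)
      rw [hl] at this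
      exact (congrArg (· ∈ (A.1 _).2) this).mpr hx
    · rw [(A.2 _).2.1 y hy] at k
      exact (congrArg (· ∈ (A.1 _).2) k).mpr hy
  choose g h1 h2 using this
  refine mem_closure_of_tendsto (f := g) (b := atTop) (tendsto_pi_nhds.2 fun i => ?_)
    (Eventually.of_forall h2)
  refine tendsto_const_nhds.congr' ?_
  filter_upwards [eventually_gt_atTop i] with L hL
  exact (tk_eq.1 (h1 L) i hL).symm

theorem ev_inf (A : ℕ → St) {N : ℕ} {z : ℕ → Bool} (h : (Tw A N z).Nonempty) :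
    ∀ᶠ z' in 𝓝 z, sInf (Tw A N z') = sInf (Tw A N z) := by
  filter_upwards [(eventually_all_finite (finite_le_nat (sInf (Tw A N z) + 1))).2
    fun i _ => ev_fo A z i] with z' hz
  have e : ∀ j ≤ sInf (Tw A N z), j ∈ Tw A N z' ↔ j ∈ Tw A N z := fun j hj =>
    and_congr_right fun _ => and_congr (hz j (hj.trans (Nat.le_succ _)))
      (hz (j + 1) (Nat.succ_le_succ hj))
  have m := (e _ le_rfl).2 (Nat.sInf_mem h)
  exact le_antisymm (Nat.sInf_le m) (Nat.sInf_le ((e _ (Nat.sInf_le m)).1 (Nat.sInf_mem ⟨_, m⟩)))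

noncomputable def jz (A : ℕ → St) (n : ℕ) (z : ℕ → Bool) : ℕ → ℕ
  | 0 => sInf (Tw A n z)
  | t + 1 => sInf (Tw A (jz A n z t + 1) z)

theorem jz_eq (A : ℕ → St) (n : ℕ) (z : ℕ → Bool) :
    ∀ t, jz A n z t = sInf (Tw A (ee n (jz A n z) t) z)
  | 0 => rfl
  | _ + 1 => rfl

theorem ev_jz (A : ℕ → St) (n : ℕ) {z : ℕ → Bool} (h : ∀ N, (Tw A N z).Nonempty) :
    ∀ t, ∀ᶠ z' in 𝓝 z, jz A n z' t = jz A n z t
  | 0 => ev_inf A (h n)
  | t + 1 => by
    filter_upwards [ev_jz A n h t, ev_inf A (h (jz A n z t + 1))] with z' h1 h2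
    rw [jz, h1, h2, jz]

theorem ev_ee (A : ℕ → St) (n : ℕ) {z : ℕ → Bool} (h : ∀ N, (Tw A N z).Nonempty) :
    ∀ t, ∀ᶠ z' in 𝓝 z, ee n (jz A n z') t = ee n (jz A n z) t
  | 0 => Eventually.of_forall fun _ => rfl
  | t + 1 => by
    filter_upwards [ev_jz A n h t] with z' h1
    rw [ee, h1, ee]

theorem exists_section {a : Ap} {A : Sp} (h : (DS.cube a A).Nonempty) :
    ∃ G : Set (ℕ → Bool), MeasurableSet G ∧ ¬ IsMeagre G ∧ ∃ ψ : G → Sp,
      Continuous[_, DS.pol] ψ ∧ ∀ z, ψ z ∈ DS.cube a A ∧ orb (ψ z).1 0 [] = z := by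
  classical
  obtain ⟨C, hC, k, rfl⟩ := h
  obtain ⟨n, hn⟩ := le_lev k fun i _ => hC i
  obtain ⟨ρ, hρ, huρ⟩ := A.up (n := n) (tk (orb C.1 0 []) (lev A.1 n)) (tk_len _ _).le
  have hl : ρ.length = lev A.1 (n + 1) := (A.2 n).2.1 ρ hρ
  have hV : IsClopen {z | tk z (lev A.1 (n + 1)) = ρ} := by
    refine ⟨isOpen_compl_iff.1 (isOpen_iff_mem_nhds.2 fun z hz => ?_),
      isOpen_iff_mem_nhds.2 fun z hz => ?_⟩ <;>
    · filter_upwards [ev_tk z (lev A.1 (n + 1))] with z' h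
      simpa [h] using hz
  choose! u hu using fun (d m : ℕ) (v : W) (h : d ≤ m ∧ v.length = lev A.1 d) =>
    A.up2 h.1 v h.2
  let G := {z | tk z (lev A.1 (n + 1)) = ρ} ∩ ⋂ N, {z | (Tw A.1 N z).Nonempty}
  let f : (ℕ → Bool) → ℕ → W → W := fun z t v =>
    if v = tk z (lev A.1 (ee n (jz A.1 n z) t)) then tk z (lev A.1 (jz A.1 n z t + 1))
    else u (ee n (jz A.1 n z) t) (jz A.1 n z t) v
  have hT : ∀ z : G, ∀ N, (Tw A.1 N z.1).Nonempty := fun z => mem_iInter.1 z.2.2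
  have hj : ∀ (z : G) t, jz A.1 n z.1 t ∈ Tw A.1 (ee n (jz A.1 n z.1) t) z.1 := fun z t =>
    (congrArg (· ∈ Tw _ _ _) (jz_eq A.1 n z.1 t)).mpr (Nat.sInf_mem (hT z _))
  have hok : ∀ z : G, Ok A.1 n (jz A.1 n z.1) (f z.1) := by
    intro z t
    refine ⟨(hj z t).1, fun v hv => ?_⟩
    by_cases e : v = tk z (lev A.1 (ee n (jz A.1 n z) t))
    · simp only [f, if_pos e]
      refine ⟨(hj z t).2.1, tk z.1 (lev A.1 (ee n (jz A.1 n z) t + 1)), ?_,
        e ▸ tk_pre _ (A.2 _).1.le, tk_pre _ (A.mono.monotone (Nat.succ_le_succ (hj z t).1))⟩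
      cases t with
      | zero => exact (show _ = ρ from z.2.1) ▸ hρ
      | succ t => exact (hj z t).2.2
    · simp only [f, if_neg e]
      exact hu _ _ v ⟨(hj z t).1, hv⟩
  refine ⟨G, hV.isOpen.measurableSet.inter
    (MeasurableSet.iInter fun N => (tw_open _ N).measurableSet), fun hm => ?_,
    fun z => bld C k A hn (hok z), cont_to fun m z => ?_, fun z => ⟨bld_mem _ _ hC, ?_⟩⟩
  · have hr : ⋂ N, {z | (Tw A.1 N z).Nonempty} ∈ residual (ℕ → Bool) :=
      countable_iInter_mem.2 fun N => residual_of_dense_open (tw_open _ N) (tw_dense A N)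
    refine not_isMeagre_of_isOpen hV.isOpen ⟨_, hl ▸ tk_getD ρ⟩ ?_
    filter_upwards [hm, hr] with z h1 h2 h3
    exact h1 ⟨h3, h2⟩
  · refine continuous_subtype_val.continuousAt.eventually
      (p := fun z' => glue k C.1 (rows A.1 n (jz A.1 n z') (f z')) m =
        glue k C.1 (rows A.1 n (jz A.1 n z.1) (f z.1)) m) ?_
    filter_upwards [ev_jz A.1 n (hT z) (m - k), ev_ee A.1 n (hT z) (m - k),
      ev_tk z.1 (lev A.1 (ee n (jz A.1 n z) (m - k))),
      ev_tk z.1 (lev A.1 (jz A.1 n z (m - k) + 1))] with z' h1 h2 h3 h4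
    simp only [glue, rows, f, h1, h2, h3, h4]
  · refine fo_uniq (bld C k A hn (hok z)) (k := 0) rfl (orb_spec _ rfl).2 fun m _ => ?_
    rcases lt_or_ge m k with hm | hm
    · have e1 : (bld C k A hn (hok z)).1 m = C.1 m := glue_lt (G := rows _ _ _ _) hm
      have e2 : lev (bld C k A hn (hok z)).1 (m + 1) = lev C.1 (m + 1) := congrArg Prod.fst e1
      have e3 : tk z.1 (lev A.1 n) = tk (orb C.1 0 []) (lev A.1 n) := by
        have := pre_tk ((show _ = ρ from z.2.1).symm ▸ huρ)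
        rwa [tk_len] at this
      rw [Fo, e1, e2, tk_le e3 (hn ▸ C.mono.monotone (show m + 1 ≤ k from hm))]
      exact (orb_spec C (k := 0) rfl).2 m (Nat.zero_le _)
    · obtain ⟨t, rfl⟩ := Nat.exists_eq_add_of_le hm
      rw [bld_fo]
      exact if_pos rfl

theorem cohen (F : (ℕ → Bool) → (ℕ → Bool) → Prop) (hF : InSpec {S | IsMeagre S} F) {a : Ap}
    {A : Sp} (h : (DS.cube a A).Nonempty) :
    @Red _ _ _ (@Subtype.instMeasurableSpace _ _ DS.bor) F
      (res (fun B B' : Sp => F (orb B.1 0 []) (orb B'.1 0 [])) (DS.cube a A)) := by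
  let := DS.pol
  let := DS.bor
  have : BorelSpace Sp := ⟨rfl⟩
  obtain ⟨G, hG, hm, ψ, hψ, h1⟩ := exists_section h
  obtain ⟨C, -, hCG, -, -, h2⟩ := hF G hG hm
  refine h2.trans ⟨fun z => ⟨ψ (inclusion hCG z), (h1 _).1⟩,
    (hψ.comp (continuous_inclusion hCG)).measurable.subtype_mk, fun z z' => ?_⟩
  simp only [res, (h1 _).2]

theorem cohen_main : ∃ (R AR : Type) (T : Pre R AR), T.IsTRS ∧
    ∀ F : (ℕ → Bool) → (ℕ → Bool) → Prop, Equivalence F →
      MeasureTheory.AnalyticSet {p : (ℕ → Bool) × (ℕ → Bool) | F p.1 p.2} →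
      InSpec {S | IsMeagre S} F →
      ∃ E : R → R → Prop, Equivalence E ∧
        @MeasureTheory.AnalyticSet (R × R) (@instTopologicalSpaceProd R R T.pol T.pol)
          {p | E p.1 p.2} ∧
        @InSpec R T.bor T.idl E ∧ @Red _ _ T.bor _ E F ∧ @Red _ _ _ T.bor F E := by
  refine ⟨Sp, Ap, DS, ds_trs, fun F h1 h2 h3 => ?_⟩
  let := DS.pol
  let := DS.bor
  have : BorelSpace Sp := ⟨rfl⟩
  have := ds_trs.polish
  have hc := orb_cont 0 []
  have r1 : Red (fun B B' : Sp => F (orb B.1 0 []) (orb B'.1 0 [])) F :=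
    ⟨_, hc.measurable, fun _ _ => Iff.rfl⟩
  obtain ⟨A⟩ := sp_ne
  exact ⟨fun B B' => F (orb B.1 0 []) (orb B'.1 0 []), h1.comap _, h2.preimage (hc.prodMap hc),
    ds_trs.spec fun a A h => r1.trans (cohen F h3 h), r1,
    (cohen F h3 (a := DS.r 0 A) ⟨A, ds_trs.le_refl A, 0, rfl⟩).trans (Red.res _ _)⟩

end Pool.Agent.MP_8067b8_lc.H6

end

-- part MP_8067b8_lc.H6.Jump
section

/-! Equality of the countable sets of branches is bireducible with the jump of equality. -/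

set_option autoImplicit false

open Set Function Filter Topology

namespace Pool.Agent.MP_8067b8_lc.H6

def Ys (B : ℕ → St) : Set (ℕ → Bool) := {z | ∃ k, ∀ n, k ≤ n → Fo B n z}

noncomputable def en (e : ℕ → ℕ × W) (B : Sp) (i : ℕ) : ℕ → Bool :=
  orb B.1 (e i).1 (tk (fun j => (e i).2.getD j false) (lev B.1 (e i).1))

theorem en_cont (e : ℕ → ℕ × W) : Continuous[DS.pol, _] (en e) := by
  let := DS.pol
  exact continuous_pi fun i => continuous_pi fun j => cont_from (m := (e i).1 + (j + 1))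
    fun B B' h => by simp only [en, orb, lim, sq_congr _ h, lev_congr h (Nat.le_add_right _ _)]

theorem en_range {e : ℕ → ℕ × W} (he : Surjective e) (B : Sp) : range (en e B) = Ys B.1 := by
  refine Subset.antisymm ?_ ?_
  · rintro _ ⟨i, rfl⟩
    exact ⟨_, (orb_spec B (tk_len _ _)).2⟩
  · rintro z ⟨k, hk⟩
    obtain ⟨i, hi⟩ := he (k, tk z (lev B.1 k))
    have := tk_getD (tk z (lev B.1 k))
    rw [tk_len] at this
    refine ⟨i, ?_⟩
    simp only [en, hi, this]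
    exact fo_uniq B (orb_spec B (tk_len _ _)).1 (orb_spec B (tk_len _ _)).2 hk

def pad (v : W) (b : Bool) (l : ℕ) : W := v ++ b :: List.replicate (l - (v.length + 1)) false

theorem pad_len {v : W} {b : Bool} {l : ℕ} (h : v.length < l) : (pad v b l).length = l := by
  simp only [pad, List.length_append, List.length_cons, List.length_replicate]; omega

theorem pad_get (v : W) (b : Bool) (l : ℕ) : (pad v b l).getD v.length false = b := by
  simp only [pad, List.getD_eq_getElem?_getD, List.length_append, List.length_cons, List.length_replicate, lt_add_iff_pos_right, Order.lt_add_one_iff, zero_le, getElem?_pos, Std.le_refl, List.getElem_append_right, tsub_self, List.getElem_cons_zero, Option.getD_some]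

noncomputable def ps (A : ℕ → St) (n : ℕ) (x : ℕ → Bool) : ℕ → W
  | 0 => List.replicate (lev A n) false
  | u + 1 =>
    if u % 4 = 1 then pad (ps A n x u)
      (!(nxr (A (n + u)) (ps A n x u)).getD (ps A n x u).length false) (lev A (n + u + 1))
    else if u % 4 = 2 then pad (ps A n x u) (x (u / 4)) (lev A (n + u + 1))
    else nxr (A (n + u)) (ps A n x u)

theorem ps_len (A : Sp) (n : ℕ) (x : ℕ → Bool) : ∀ u, (ps A.1 n x u).length = lev A.1 (n + u)
  | 0 => by simp [ps]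
  | u + 1 => by
    have h := ps_len A n x u
    have h' : (ps A.1 n x u).length < lev A.1 (n + u + 1) := h ▸ (A.2 _).1
    rw [ps]
    split_ifs
    · exact pad_len h'
    · exact pad_len h'
    · exact (A.2 _).2.1 _ (nxr_spec A h).1

noncomputable def pz (A : ℕ → St) (n : ℕ) (x : ℕ → Bool) : ℕ → Bool := lim (ps A n x)

theorem pz_tk (A : Sp) (n : ℕ) (x : ℕ → Bool) (u : ℕ) :
    tk (pz A.1 n x) (lev A.1 (n + u)) = ps A.1 n x u := by
  rw [← ps_len A n x u]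
  refine lim_spec (fun t => ?_) (fun t => ?_) u
  · rw [ps]
    split_ifs
    · exact List.prefix_append _ _
    · exact List.prefix_append _ _
    · exact (nxr_spec A (ps_len A n x t)).2
  · rw [ps_len]; exact (Nat.le_add_left _ _).trans A.mono.le_apply

theorem pz_fo (A : Sp) (n : ℕ) (x : ℕ → Bool) {u : ℕ} (h1 : u % 4 ≠ 1) (h2 : u % 4 ≠ 2) :
    Fo A.1 (n + u) (pz A.1 n x) := by
  rw [Fo, add_assoc, pz_tk, ps, if_neg h1, if_neg h2]
  exact (nxr_spec A (ps_len A n x u)).1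

theorem pz_not (A : Sp) (n : ℕ) (x : ℕ → Bool) {u : ℕ} (h1 : u % 4 = 1) :
    ¬ Fo A.1 (n + u) (pz A.1 n x) := by
  rw [Fo, add_assoc, pz_tk, ps, if_pos h1]
  intro h
  have hl := ps_len A n x u
  have e := ((A.2 _).2.2 _ hl).unique ⟨h, List.prefix_append _ _⟩ (nxr_spec A hl)
  have := congrArg (fun w : W => w.getD (ps A.1 n x u).length false) e
  simp only [pad_get] at this
  simp at this

theorem pz_inj (A : Sp) (n : ℕ) : Injective (pz A.1 n) := by
  intro x y h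
  funext t
  have e : ∀ u, ps A.1 n x u = ps A.1 n y u := fun u => by rw [← pz_tk, h, pz_tk]
  obtain ⟨u, h1, h2, rfl⟩ : ∃ u, ¬ u % 4 = 1 ∧ u % 4 = 2 ∧ u / 4 = t :=
    ⟨4 * t + 2, by omega, by omega, by omega⟩
  have := e (u + 1)
  rw [ps, ps, if_neg h1, if_pos h2, if_neg h1, if_pos h2, e u] at this
  rw [← pad_get (ps A.1 n y u) (x _), this, pad_get]

theorem ev_ps (A : ℕ → St) (n : ℕ) (x : ℕ → Bool) : ∀ u, ∀ᶠ x' in 𝓝 x, ps A n x' u = ps A n x u
  | 0 => Eventually.of_forall fun _ => rfl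
  | u + 1 => by
    filter_upwards [ev_ps A n x u, ev_tk x (u / 4 + 1)] with x' h1 h2
    rw [ps, ps, h1, tk_eq.1 h2 _ (Nat.lt_succ_self _)]

theorem ev_ne {z z' : ℕ → Bool} (h : z ≠ z') {L : ℕ → ℕ} (hL : ∀ t, t ≤ L t) :
    ∀ᶠ t in atTop, tk z (L t) ≠ tk z' (L t) := by
  obtain ⟨i, hi⟩ := Function.ne_iff.1 h
  filter_upwards [eventually_gt_atTop i] with t ht e
  exact hi (tk_eq.1 e i (ht.trans_le (hL t)))

section

variable (A : Sp) (n : ℕ) (p : ℕ → ℕ → Bool)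

def Sx (t : ℕ) (v : W) : Set ℕ := {i | i ≤ t ∧ tk (p i) (lev A.1 (n + 4 * t)) = v}

open Classical in
noncomputable def zt (t : ℕ) (v : W) : ℕ → Bool :=
  if (Sx A n p t v).Nonempty then p (sInf (Sx A n p t v)) else orb A.1 (n + 4 * t) v

noncomputable def ft (t : ℕ) (v : W) : W := tk (zt A n p t v) (lev A.1 (n + 4 * t + 3 + 1))

theorem ee_four : ∀ t, ee n (fun t => n + 4 * t + 3) t = n + 4 * t
  | 0 => rfl
  | _ + 1 => rfl

variable {A n p}

theorem ft_ok (hp : ∀ i u, u % 4 ≠ 1 → u % 4 ≠ 2 → Fo A.1 (n + u) (p i)) :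
    Ok A.1 n (fun t => n + 4 * t + 3) (ft A n p) := by
  intro t
  rw [ee_four]
  refine ⟨Nat.le_add_right _ _, fun v hv => ?_⟩
  have : tk (zt A n p t v) (lev A.1 (n + 4 * t)) = v ∧ Fo A.1 (n + 4 * t) (zt A n p t v) ∧
      Fo A.1 (n + 4 * t + 3) (zt A n p t v) := by
    rw [zt]
    split_ifs with h
    · exact ⟨(Nat.sInf_mem h).2, hp _ _ (by omega) (by omega),
        hp _ (4 * t + 3) (by omega) (by omega)⟩
    · exact ⟨(orb_spec A hv).1, (orb_spec A hv).2 _ le_rfl,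
        (orb_spec A hv).2 _ (Nat.le_add_right _ _)⟩
  exact ⟨this.2.2, _, this.2.1, (congrArg (· <+: _) this.1).mp (tk_pre _ (A.2 _).1.le),
    tk_pre _ (A.mono.monotone (by omega))⟩

theorem ys_bld (hp : ∀ i u, u % 4 ≠ 1 → u % 4 ≠ 2 → Fo A.1 (n + u) (p i))
    (hq : ∀ i u, u % 4 = 1 → ¬ Fo A.1 (n + u) (p i)) {C : Sp} {k : ℕ}
    (h : lev C.1 k = lev A.1 n) : Ys (bld C k A h (ft_ok hp)).1 = Ys A.1 ∪ range p := by
  have hL : ∀ t, t ≤ lev A.1 (n + 4 * t) := fun t => le_trans (by omega) A.mono.le_apply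
  have key : ∀ z, z ∈ Ys (bld C k A h (ft_ok hp)).1 ↔ ∀ᶠ t in atTop,
      tk (zt A n p t (tk z (lev A.1 (n + 4 * t)))) (lev A.1 (n + 4 * (t + 1))) =
        tk z (lev A.1 (n + 4 * (t + 1))) := by
    intro z
    have e : ∀ t, Fo (bld C k A h (ft_ok hp)).1 (k + t) z ↔ _ := fun t => bld_fo h _ t z
    simp only [ee_four] at e
    rw [eventually_atTop]
    refine ⟨fun ⟨T, hT⟩ => ⟨T, fun t ht => (e t).1 (hT _ (by omega))⟩,
      fun ⟨T, hT⟩ => ⟨k + T, fun m hm => ?_⟩⟩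
    obtain ⟨t, rfl⟩ := Nat.exists_eq_add_of_le (show k ≤ m by omega)
    exact (e t).2 (hT t (by omega))
  have far : ∀ z i, ∀ᶠ t in atTop, ∀ j ∈ {j | j ≤ i}, p j ≠ z →
      tk (p j) (lev A.1 (n + 4 * t)) ≠ tk z (lev A.1 (n + 4 * t)) := fun z i =>
    (eventually_all_finite (finite_le_nat i)).2 fun j _ => by
      by_cases e : p j = z
      · exact Eventually.of_forall fun _ h => absurd e h
      · exact (ev_ne e hL).mono fun _ h _ => h
  ext z
  rw [key]
  constructor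
  · intro hz
    obtain ⟨T, hT⟩ := eventually_atTop.1 hz
    by_cases c : ∃ t, T ≤ t ∧ (Sx A n p t (tk z (lev A.1 (n + 4 * t)))).Nonempty
    · obtain ⟨t, ht, i, hi⟩ := c
      have ind : ∀ s, t ≤ s → ∃ j ≤ i, j ∈ Sx A n p s (tk z (lev A.1 (n + 4 * s))) := by
        intro s hs
        induction hs with
        | refl => exact ⟨i, le_rfl, hi⟩
        | @step s hs ih =>
          obtain ⟨j, hji, hj⟩ := ih
          have := hT s (ht.trans hs)
          rw [zt, if_pos ⟨j, hj⟩] at this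
          exact ⟨_, (Nat.sInf_le hj).trans hji,
            (Nat.sInf_le hj).trans (hj.1.trans (Nat.le_succ _)), this⟩
      obtain ⟨s, h1, h2⟩ := ((far z i).and (eventually_ge_atTop t)).exists
      obtain ⟨j, hji, hj⟩ := ind s h2
      by_contra hc
      exact h1 j hji (fun e => hc (Or.inr ⟨j, e⟩)) hj.2
    · refine Or.inl ⟨n + 4 * T, fun m hm => ?_⟩
      obtain ⟨t, ht, h1, h2⟩ : ∃ t, T ≤ t ∧ n + 4 * t ≤ m ∧ m + 1 ≤ n + 4 * (t + 1) :=
        ⟨(m - n) / 4, by omega, by omega, by omega⟩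
      have := hT t ht
      rw [zt, if_neg fun e => c ⟨t, ht, e⟩] at this
      rw [Fo, ← tk_le this (A.mono.monotone h2)]
      exact (orb_spec A (tk_len _ _)).2 m h1
  · rintro (⟨m, hm⟩ | ⟨i, rfl⟩)
    · filter_upwards [eventually_gt_atTop m] with t ht
      rw [zt, if_neg, fo_uniq A (orb_spec A (tk_len _ _)).1 (orb_spec A (tk_len _ _)).2
        fun j hj => hm j (by omega)]
      rintro ⟨i, -, hi⟩
      refine hq i (4 * t - 3) (by omega) ?_
      rw [Fo, tk_le hi (A.mono.monotone (by omega))]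
      exact hm _ (by omega)
    · filter_upwards [far (p i) i, eventually_ge_atTop i] with t h1 h2
      have hi : i ∈ Sx A n p t (tk (p i) (lev A.1 (n + 4 * t))) := ⟨h2, rfl⟩
      rw [zt, if_pos ⟨i, hi⟩]
      by_contra hc
      exact h1 _ (Nat.sInf_le hi) (fun e => hc (by rw [e])) (Nat.sInf_mem ⟨i, hi⟩).2

theorem ft_congr {q : ℕ → ℕ → Bool} {t : ℕ} (h : ∀ i ≤ t,
    tk (q i) (lev A.1 (n + 4 * t + 3 + 1)) = tk (p i) (lev A.1 (n + 4 * t + 3 + 1))) :
    ft A n q t = ft A n p t := by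
  funext v
  have e : Sx A n q t v = Sx A n p t v := Set.ext fun i => and_congr_right fun hi => by
    rw [tk_le (h i hi) (A.mono.monotone (by omega))]
  rw [ft, ft, zt, zt, e]
  split_ifs with c
  · exact h _ (Nat.sInf_mem c).1
  · rfl

end

theorem jump_red {a : Ap} {A : Sp} (h : (DS.cube a A).Nonempty) :
    @Red _ _ _ (@Subtype.instMeasurableSpace _ _ DS.bor)
      (fun x y : ℕ → ℕ → Bool => range x = range y)
      (res (fun B B' : Sp => Ys B.1 = Ys B'.1) (DS.cube a A)) := by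
  let := DS.pol
  let := DS.bor
  have : BorelSpace Sp := ⟨rfl⟩
  obtain ⟨C, hC, k, rfl⟩ := h
  obtain ⟨n, hn⟩ := le_lev k fun i _ => hC i
  have hp : ∀ x : ℕ → ℕ → Bool, ∀ i u, u % 4 ≠ 1 → u % 4 ≠ 2 →
      Fo A.1 (n + u) (pz A.1 n (x i)) := fun x i u => pz_fo A n (x i)
  have hc : Continuous fun x : ℕ → ℕ → Bool => bld C k A hn (ft_ok (hp x)) := by
    refine cont_to fun m x => ?_
    filter_upwards [(eventually_all_finite (finite_le_nat (m - k))).2 fun i _ =>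
      (continuous_apply i).continuousAt.eventually (ev_ps A.1 n (x i) (4 * (m - k) + 3 + 1))]
      with x' hx
    have := ft_congr (A := A) (n := n) (p := fun i => pz A.1 n (x i))
      (q := fun i => pz A.1 n (x' i)) (t := m - k) fun i hi =>
        (pz_tk A n _ _).trans ((hx i hi).trans (pz_tk A n _ _).symm)
    simp only [bld, Sp.glue, glue, rows, this]
  refine ⟨fun x => ⟨_, bld_mem hn (ft_ok (hp x)) hC⟩, hc.measurable.subtype_mk, fun x y => ?_⟩
  have e : ∀ x : ℕ → ℕ → Bool, Ys (bld C k A hn (ft_ok (hp x))).1 =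
      Ys A.1 ∪ pz A.1 n '' range x := fun x => by
    rw [ys_bld (hp x) (fun i u => pz_not A n (x i)), ← range_comp]; rfl
  have d : ∀ w, pz A.1 n w ∉ Ys A.1 := fun w ⟨m, hm⟩ =>
    pz_not A n w (u := 4 * m + 1) (by omega) (hm _ (by omega))
  simp only [res, e]
  refine ⟨fun h => by rw [h], fun h => ?_⟩
  ext w
  have := Set.ext_iff.1 h (pz A.1 n w)
  simpa only [mem_union, d w, false_or, (pz_inj A n).mem_set_image] using this

theorem jump_main : ∃ (R AR : Type) (T : Pre R AR), T.IsTRS ∧ ∃ E : R → R → Prop,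
    Equivalence E ∧ @MeasurableSet (R × R) (T.bor.prod T.bor) {p | E p.1 p.2} ∧
      @InSpec R T.bor T.idl E ∧
      @Red _ _ T.bor _ E (fun x y : ℕ → ℕ → Bool => range x = range y) ∧
      @Red _ _ _ T.bor (fun x y : ℕ → ℕ → Bool => range x = range y) E := by
  let := DS.pol
  let := DS.bor
  have : BorelSpace Sp := ⟨rfl⟩
  obtain ⟨e, he⟩ := exists_surjective_nat (ℕ × W)
  have hm := (en_cont e).measurable
  have r1 : Red (fun B B' : Sp => Ys B.1 = Ys B'.1) fun x y : ℕ → ℕ → Bool => range x = range y :=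
    ⟨en e, hm, fun _ _ => by simp only [en_range he]⟩
  obtain ⟨A⟩ := sp_ne
  refine ⟨Sp, Ap, DS, ds_trs, fun B B' => Ys B.1 = Ys B'.1, ⟨fun _ => rfl, Eq.symm, Eq.trans⟩, ?_,
    ds_trs.spec fun a A h => r1.trans (jump_red h), r1,
    (jump_red (a := DS.r 0 A) ⟨A, ds_trs.le_refl A, 0, rfl⟩).trans (Red.res _ _)⟩
  have : {p : Sp × Sp | Ys p.1.1 = Ys p.2.1} = (⋂ i, ⋃ j, {p | en e p.1 i = en e p.2 j}) ∩
      ⋂ j, ⋃ i, {p | en e p.1 i = en e p.2 j} := by
    ext p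
    simp only [mem_ofPred_eq, ← en_range he, Subset.antisymm_iff, range_subset_iff, mem_range,
      mem_inter_iff, mem_iInter, mem_iUnion, eq_comm]
  rw [this]
  have k : ∀ i j, MeasurableSet {p : Sp × Sp | en e p.1 i = en e p.2 j} := fun i j =>
    measurableSet_eq_fun ((measurable_pi_apply i).comp (hm.comp measurable_fst))
      ((measurable_pi_apply j).comp (hm.comp measurable_snd))
  exact (MeasurableSet.iInter fun i => MeasurableSet.iUnion fun j => k i j).inter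
    (MeasurableSet.iInter fun j => MeasurableSet.iUnion fun i => k i j)

end Pool.Agent.MP_8067b8_lc.H6

end
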